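import Pool.Agent.Helper97.EN.Defs
import Pool.Agent.Helper97.RP4.H3

/-!
The logarithmic kernel: integrability, bilinearity, symmetry.
-/

open MeasureTheory Real Set Filter Topology

namespace EN

lemma Phi_int (R : ℝ) : IntegrableOn Phi (bx R) :=
  (RP4.log_locInt R).const_mul _

lemma Phi_measurable : Measurable Phi := by
  unfold Phi
  fun_prop

lemma Phi_neg (z : Pl) : Phi (-z) = Phi z := by
  simp [Phi]

/-
`G` integrable, `Phi * indicator (bx (2R))` integrable: `MeasureTheory.Integrable.convolution_integrand` (with `L = mul`); the factor `F p.1`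
is bounded.  Here `F`, `G` vanish off `bx R`, so `Phi (p.1 - p.2)` may be replaced by its restriction to `bx (2R)`.
-/
lemma ker_int {F G : Pl → ℝ} (hF : Continuous F) (hFc : HasCompactSupport F) (hG : Continuous G)
    (hGc : HasCompactSupport G) :
    Integrable (fun p : Pl × Pl => F p.1 * G p.2 * Phi (p.1 - p.2)) := by
  obtain ⟨B, hB⟩ := hF.bounded_above_of_compact_support hFc
  have hK : IsCompact (tsupport F) := hFc
  have hK' : IsCompact (tsupport G) := hGc
  obtain ⟨R₁, hR₁⟩ := hK.isBounded.exists_norm_le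
  obtain ⟨R₂, hR₂⟩ := hK'.isBounded.exists_norm_le
  obtain ⟨R, hRd⟩ : ∃ R, R = max R₁ R₂ := ⟨_, rfl⟩
  have hs1 : ∀ x, F x ≠ 0 → |x.1| ≤ R ∧ |x.2| ≤ R := by
    intro x hx
    have h1 := (hR₁ x (subset_tsupport F hx)).trans (le_max_left R₁ R₂)
    rw [← hRd] at h1
    exact ⟨(norm_fst_le x).trans h1, (norm_snd_le x).trans h1⟩
  have hs2 : ∀ x, G x ≠ 0 → |x.1| ≤ R ∧ |x.2| ≤ R := by
    intro x hx
    have h1 := (hR₂ x (subset_tsupport G hx)).trans (le_max_right R₁ R₂)
    rw [← hRd] at h1
    exact ⟨(norm_fst_le x).trans h1, (norm_snd_le x).trans h1⟩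
  have hg : Integrable (indicator (bx (2 * R)) (fun z : Pl => |Phi z|)) := by
    have hm : MeasurableSet (bx (2 * R)) := measurableSet_Icc.prod measurableSet_Icc
    exact (integrable_indicator_iff hm).2 (Phi_int (2 * R)).abs
  have hGi : Integrable G := hG.integrable_of_hasCompactSupport hGc
  have hcv := hGi.abs.convolution_integrand (ContinuousLinearMap.mul ℝ ℝ) hg
  refine Integrable.mono' (hcv.const_mul B) ?_ ?_
  · have hFm := hF.measurable
    have hGm := hG.measurable
    have hPm := Phi_measurable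
    exact (Measurable.aestronglyMeasurable (by fun_prop))
  · refine Filter.Eventually.of_forall fun p => ?_
    rw [Real.norm_eq_abs, abs_mul, abs_mul]
    simp only [ContinuousLinearMap.mul_apply']
    have hB0 : |F p.1| ≤ B := hB p.1
    by_cases h1 : F p.1 = 0
    · rw [h1, abs_zero, zero_mul, zero_mul]
      have hB1 : 0 ≤ B := (abs_nonneg _).trans hB0
      refine mul_nonneg hB1 (mul_nonneg (abs_nonneg _) ?_)
      exact indicator_nonneg (fun _ _ => abs_nonneg _) _
    · by_cases h2 : G p.2 = 0
      · rw [h2, abs_zero, mul_zero, zero_mul, zero_mul, mul_zero]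
      · have h3 := hs1 _ h1
        have h4 := hs2 _ h2
        have h5 : p.1 - p.2 ∈ bx (2 * R) := by
          unfold bx
          rw [mem_prod, mem_Icc, mem_Icc, Prod.fst_sub, Prod.snd_sub]
          rw [abs_le, abs_le] at h3 h4
          refine ⟨⟨?_, ?_⟩, ⟨?_, ?_⟩⟩ <;> linarith [h3.1.1, h3.1.2, h3.2.1, h3.2.2, h4.1.1,
            h4.1.2, h4.2.1, h4.2.2]
        rw [indicator_of_mem h5, mul_assoc]
        exact mul_le_mul_of_nonneg_right hB0 (mul_nonneg (abs_nonneg _) (abs_nonneg _))

/-- for fixed `x` -/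
lemma ker_int1 {G : Pl → ℝ} (hG : Continuous G) (hGc : HasCompactSupport G) (x : Pl) :
    Integrable (fun y : Pl => G y * Phi (x - y)) := by
  obtain ⟨B, hB⟩ := hG.bounded_above_of_compact_support hGc
  have hK : IsCompact (tsupport G) := hGc
  obtain ⟨R, hR⟩ := hK.isBounded.exists_norm_le
  have hs : ∀ y, G y ≠ 0 → |y.1| ≤ R ∧ |y.2| ≤ R := by
    intro y hy
    have h1 := hR y (subset_tsupport G hy)
    exact ⟨(norm_fst_le y).trans h1, (norm_snd_le y).trans h1⟩
  have hg : Integrable (indicator (bx (R + ‖x‖)) (fun z : Pl => |Phi z|)) := by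
    have hm : MeasurableSet (bx (R + ‖x‖)) := measurableSet_Icc.prod measurableSet_Icc
    exact (integrable_indicator_iff hm).2 (Phi_int (R + ‖x‖)).abs
  have hcv := hg.comp_sub_left x
  refine Integrable.mono' (hcv.const_mul B) ?_ ?_
  · exact (hG.measurable.mul
      (Phi_measurable.comp (measurable_const.sub measurable_id))).aestronglyMeasurable
  · refine Filter.Eventually.of_forall fun y => ?_
    rw [Real.norm_eq_abs, abs_mul]
    have hB0 : |G y| ≤ B := hB y
    by_cases h1 : G y = 0
    · rw [h1, abs_zero, zero_mul]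
      have hB1 : 0 ≤ B := (abs_nonneg _).trans hB0
      refine mul_nonneg hB1 ?_
      exact indicator_nonneg (fun _ _ => abs_nonneg _) _
    · have h3 := hs _ h1
      have h4 : |x.1| ≤ ‖x‖ := norm_fst_le x
      have h4' : |x.2| ≤ ‖x‖ := norm_snd_le x
      have h5 : x - y ∈ bx (R + ‖x‖) := by
        unfold bx
        rw [mem_prod, mem_Icc, mem_Icc, Prod.fst_sub, Prod.snd_sub]
        rw [abs_le, abs_le] at h3
        rw [abs_le] at h4 h4'
        refine ⟨⟨?_, ?_⟩, ⟨?_, ?_⟩⟩ <;> linarith [h3.1.1, h3.1.2, h3.2.1, h3.2.2, h4.1,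
          h4.2, h4'.1, h4'.2]
      rw [indicator_of_mem h5]
      exact mul_le_mul_of_nonneg_right hB0 (abs_nonneg _)

lemma en_eq (F G : Pl → ℝ) : en F G = ∫ x : Pl, F x * pot G x := by
  unfold en pot Phi
  refine integral_congr_ae (Filter.Eventually.of_forall fun x => ?_)
  simp only
  rw [← integral_const_mul]
  refine integral_congr_ae (Filter.Eventually.of_forall fun y => ?_)
  simp only [Prod.fst_sub, Prod.snd_sub]
  ring

lemma en_prod {F G : Pl → ℝ} (hF : Continuous F) (hFc : HasCompactSupport F) (hG : Continuous G)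
    (hGc : HasCompactSupport G) : en F G = ∫ p : Pl × Pl, F p.1 * G p.2 * Phi (p.1 - p.2) := by
  have h := ker_int hF hFc hG hGc
  rw [Measure.volume_eq_prod] at h ⊢
  rw [integral_prod _ h]
  unfold en Phi
  simp only [Prod.fst_sub, Prod.snd_sub]

theorem en_symm {F G : Pl → ℝ} (hF : Continuous F) (hFc : HasCompactSupport F) (hG : Continuous G)
    (hGc : HasCompactSupport G) : en F G = en G F := by
  rw [en_prod hF hFc hG hGc, en_prod hG hGc hF hFc, Measure.volume_eq_prod,
    ← integral_prod_swap]
  refine integral_congr_ae (Filter.Eventually.of_forall fun p => ?_)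
  simp only [Prod.fst_swap, Prod.snd_swap]
  have h := Phi_neg (p.1 - p.2)
  rw [neg_sub] at h
  rw [h]
  ring

theorem en_add_left {F F' G : Pl → ℝ} (hF : Continuous F) (hFc : HasCompactSupport F)
    (hF' : Continuous F') (hFc' : HasCompactSupport F') (hG : Continuous G)
    (hGc : HasCompactSupport G) : en (fun z => F z + F' z) G = en F G + en F' G := by
  rw [en_prod (F := fun z => F z + F' z) (hF.add hF') (hFc.add hFc') hG hGc, en_prod hF hFc hG hGc,
    en_prod hF' hFc' hG hGc, ← integral_add (ker_int hF hFc hG hGc) (ker_int hF' hFc' hG hGc)]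
  refine integral_congr_ae (Filter.Eventually.of_forall fun p => ?_)
  simp only
  ring

theorem en_add_right {F F' G : Pl → ℝ} (hF : Continuous F) (hFc : HasCompactSupport F)
    (hF' : Continuous F') (hFc' : HasCompactSupport F') (hG : Continuous G)
    (hGc : HasCompactSupport G) : en G (fun z => F z + F' z) = en G F + en G F' := by
  have h1 : en G (fun z => F z + F' z) = en (fun z => F z + F' z) G :=
    en_symm hG hGc (hF.add hF') (hFc.add hFc')
  rw [h1, en_add_left hF hFc hF' hFc' hG hGc, en_symm hF hFc hG hGc, en_symm hF' hFc' hG hGc]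

end EN
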