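import Pool.Agent.Helper97.EN.KerA

/-!
Energy bound by the `L¹` norm.
-/

open MeasureTheory Real Set Filter Topology

namespace EN

private lemma log4_pt {x : ℝ} (hx : 0 < x) :
    (log x) ^ 4 ≤ 4096 * x ^ (-(1 / 2) : ℝ) + x ^ 4 := by
  have hp : 0 < x ^ (-(1 / 2) : ℝ) := rpow_pos_of_pos hx _
  rcases le_total x 1 with h | h
  · have h1 := abs_log_mul_self_rpow_lt x (1 / 8) hx h (by norm_num)
    have h2 : (log x * x ^ ((1 : ℝ) / 8)) ^ 4 ≤ 8 ^ 4 := by
      have h3 : |log x * x ^ ((1 : ℝ) / 8)| ^ 4 ≤ 8 ^ 4 :=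
        pow_le_pow_left₀ (abs_nonneg _) (by norm_num at h1 ⊢; linarith) 4
      rwa [Even.pow_abs (by decide)] at h3
    have h4 : (x ^ ((1 : ℝ) / 8)) ^ 4 = x ^ ((1 : ℝ) / 2) := by
      rw [← rpow_natCast, ← rpow_mul hx.le]
      norm_num
    have h5 : x ^ ((1 : ℝ) / 2) * x ^ (-(1 / 2) : ℝ) = 1 := by
      rw [← rpow_add hx]
      norm_num
    have h6 : (log x) ^ 4 * x ^ ((1 : ℝ) / 2) ≤ 4096 := by
      rw [mul_pow, h4] at h2
      norm_num at h2 ⊢
      exact h2
    have h7 : (log x) ^ 4 ≤ 4096 * x ^ (-(1 / 2) : ℝ) := by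
      calc (log x) ^ 4 = ((log x) ^ 4 * x ^ ((1 : ℝ) / 2)) * x ^ (-(1 / 2) : ℝ) := by
            rw [mul_assoc, h5, mul_one]
        _ ≤ 4096 * x ^ (-(1 / 2) : ℝ) := mul_le_mul_of_nonneg_right h6 hp.le
    have : 0 ≤ x ^ 4 := by positivity
    linarith
  · have h1 : 0 ≤ log x := log_nonneg h
    have h2 : log x ≤ x := by
      have := log_le_sub_one_of_pos hx
      linarith
    have h3 : (log x) ^ 4 ≤ x ^ 4 := pow_le_pow_left₀ h1 h2 4
    linarith

private lemma log4_int (T : ℝ) : IntegrableOn (fun x : ℝ => (log x) ^ 4) (Icc (-T) T) := by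
  rw [integrableOn_Icc_iff_integrableOn_Ioc]
  have key : ∀ c : ℝ, 0 < c → IntervalIntegrable (fun x : ℝ => (log x) ^ 4) volume 0 c := by
    intro c hc
    have h1 : IntervalIntegrable (fun x : ℝ => 4096 * x ^ (-(1 / 2) : ℝ) + x ^ 4) volume 0 c :=
      ((intervalIntegral.intervalIntegrable_rpow' (by norm_num)).const_mul _).add
        (continuous_pow 4).continuousOn.intervalIntegrable
    rw [intervalIntegrable_iff, uIoc_of_le hc.le] at h1 ⊢
    refine Integrable.mono' h1 ?_ ?_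
    · exact Measurable.aestronglyMeasurable (by fun_prop)
    · refine (ae_restrict_mem measurableSet_Ioc).mono fun x hx => ?_
      rw [Real.norm_eq_abs, abs_of_nonneg (by positivity)]
      exact log4_pt hx.1
  exact (intervalIntegrable_of_even (a := -T) (b := T)
    (fun x => by rw [Real.log_neg_eq_log]) key).1

private lemma Phi4_int (R : ℝ) : IntegrableOn (fun z : Pl => |Phi z| ^ 4) (bx R) := by
  have h1 := log4_int R
  have h2 : IntegrableOn (fun x : ℝ => x ^ 4) (Icc (-R) R) :=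
    (continuous_pow 4).continuousOn.integrableOn_Icc
  have h3 : Integrable (fun z : ℝ × ℝ => 27 * ((log z.1) ^ 4 + z.1 ^ 4 + z.2 ^ 4))
      ((volume.restrict (Icc (-R) R)).prod (volume.restrict (Icc (-R) R))) :=
    (((Integrable.comp_fst h1 _).add (Integrable.comp_fst h2 _)).add
      (Integrable.comp_snd h2 _)).const_mul _
  rw [Measure.prod_restrict] at h3
  have h4 : ∀ᵐ z : ℝ × ℝ ∂(volume.restrict (Icc (-R) R ×ˢ Icc (-R) R)), z.1 ≠ 0 := by
    refine ae_restrict_of_ae ?_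
    have h5 : ∀ᵐ x : ℝ, x ≠ 0 := by
      rw [ae_iff]
      simp
    exact (Measure.quasiMeasurePreserving_fst (μ := (volume : Measure ℝ))
      (ν := (volume : Measure ℝ))).ae h5
  refine Integrable.mono' h3 ?_ ?_
  · exact Measurable.aestronglyMeasurable (by have := Phi_measurable; fun_prop)
  · filter_upwards [h4] with z hz
    have hpos : 0 < |z.1| := abs_pos.2 hz
    have hs1 : |z.1| ≤ Real.sqrt (z.1 ^ 2 + z.2 ^ 2) := by
      rw [← Real.sqrt_sq_eq_abs]
      exact Real.sqrt_le_sqrt (by nlinarith [sq_nonneg z.2])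
    have hs2 : Real.sqrt (z.1 ^ 2 + z.2 ^ 2) ≤ |z.1| + |z.2| := by
      rw [Real.sqrt_le_left (by positivity)]
      have e1 : z.1 ^ 2 = |z.1| ^ 2 := (sq_abs _).symm
      have e2 : z.2 ^ 2 = |z.2| ^ 2 := (sq_abs _).symm
      rw [e1, e2]
      nlinarith [mul_nonneg (abs_nonneg z.1) (abs_nonneg z.2)]
    have hs0 : 0 < Real.sqrt (z.1 ^ 2 + z.2 ^ 2) := hpos.trans_le hs1
    have g1 : log |z.1| ≤ log (Real.sqrt (z.1 ^ 2 + z.2 ^ 2)) := Real.log_le_log hpos hs1
    have g2 : log (Real.sqrt (z.1 ^ 2 + z.2 ^ 2)) ≤ Real.sqrt (z.1 ^ 2 + z.2 ^ 2) - 1 :=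
      Real.log_le_sub_one_of_pos hs0
    rw [Real.log_abs] at g1
    have g3 : |log (Real.sqrt (z.1 ^ 2 + z.2 ^ 2))| ≤ |log z.1| + |z.1| + |z.2| := by
      rw [abs_le]
      constructor
      · have := neg_abs_le (log z.1)
        have := abs_nonneg z.2
        linarith
      · have := abs_nonneg (log z.1)
        linarith
    have g4 : |Phi z| ≤ |log z.1| + |z.1| + |z.2| := by
      unfold Phi
      rw [abs_mul, abs_neg]
      have hc : |1 / (2 * π)| ≤ 1 := by
        rw [abs_of_pos (by positivity), div_le_one (by positivity)]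
        nlinarith [pi_gt_three]
      calc |1 / (2 * π)| * |log (Real.sqrt (z.1 ^ 2 + z.2 ^ 2))|
          ≤ 1 * |log (Real.sqrt (z.1 ^ 2 + z.2 ^ 2))| :=
            mul_le_mul_of_nonneg_right hc (abs_nonneg _)
        _ ≤ _ := by rw [one_mul]; exact g3
    have g5 : |Phi z| ^ 4 ≤ (|log z.1| + |z.1| + |z.2|) ^ 4 :=
      pow_le_pow_left₀ (abs_nonneg _) g4 4
    have g6 : ∀ a b c : ℝ, (a + b + c) ^ 4 ≤ 27 * (a ^ 4 + b ^ 4 + c ^ 4) := by
      intro a b c
      have k1 : (a + b + c) ^ 2 ≤ 3 * (a ^ 2 + b ^ 2 + c ^ 2) := by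
        nlinarith [sq_nonneg (a - b), sq_nonneg (b - c), sq_nonneg (a - c)]
      have k2 : (a ^ 2 + b ^ 2 + c ^ 2) ^ 2 ≤ 3 * (a ^ 4 + b ^ 4 + c ^ 4) := by
        nlinarith [sq_nonneg (a ^ 2 - b ^ 2), sq_nonneg (b ^ 2 - c ^ 2),
          sq_nonneg (a ^ 2 - c ^ 2)]
      have k3 : ((a + b + c) ^ 2) ^ 2 ≤ (3 * (a ^ 2 + b ^ 2 + c ^ 2)) ^ 2 :=
        pow_le_pow_left₀ (sq_nonneg _) k1 2
      calc (a + b + c) ^ 4 = ((a + b + c) ^ 2) ^ 2 := by ring
        _ ≤ (3 * (a ^ 2 + b ^ 2 + c ^ 2)) ^ 2 := k3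
        _ = 9 * (a ^ 2 + b ^ 2 + c ^ 2) ^ 2 := by ring
        _ ≤ 9 * (3 * (a ^ 4 + b ^ 4 + c ^ 4)) := by linarith
        _ = _ := by ring
    rw [Real.norm_eq_abs, abs_of_nonneg (by positivity)]
    refine g5.trans ((g6 _ _ _).trans (le_of_eq ?_))
    rw [Even.pow_abs (by decide), Even.pow_abs (by decide), Even.pow_abs (by decide)]

/-- the kernel cut off at `bx (2R)` -/
private noncomputable def Kc (R : ℝ) : Pl → ℝ := (bx (2 * R)).indicator fun z => |Phi z|

private lemma bx_meas (R : ℝ) : MeasurableSet (bx R) :=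
  measurableSet_Icc.prod measurableSet_Icc

private lemma Kc_nonneg (R : ℝ) (z : Pl) : 0 ≤ Kc R z :=
  indicator_nonneg (fun _ _ => abs_nonneg _) z

private lemma Kc_meas (R : ℝ) : Measurable (Kc R) :=
  Measurable.indicator (by have := Phi_measurable; fun_prop) (bx_meas _)

private lemma Kc_int (R : ℝ) : Integrable (Kc R) := by
  unfold Kc
  rw [integrable_indicator_iff (bx_meas _)]
  exact (Phi_int (2 * R)).abs

private lemma Kc4_int (R : ℝ) : Integrable (fun z => Kc R z ^ (4 : ℝ)) := by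
  have h : (fun z => Kc R z ^ (4 : ℝ)) = (bx (2 * R)).indicator fun z => |Phi z| ^ 4 := by
    funext z
    unfold Kc
    by_cases hz : z ∈ bx (2 * R)
    · rw [indicator_of_mem hz, indicator_of_mem hz]
      exact_mod_cast rpow_natCast |Phi z| 4
    · rw [indicator_of_notMem hz, indicator_of_notMem hz, zero_rpow (by norm_num)]
  rw [h, integrable_indicator_iff (bx_meas _)]
  exact Phi4_int (2 * R)

private lemma Kc_memLp (R : ℝ) (x : Pl) :
    MemLp (fun y => Kc R (x - y)) (ENNReal.ofReal 4) := by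
  have hm : AEStronglyMeasurable (fun y => Kc R (x - y)) volume :=
    ((Kc_meas R).comp (measurable_const.sub measurable_id)).aestronglyMeasurable
  have h4 : Integrable (fun y => Kc R (x - y) ^ (4 : ℝ)) := (Kc4_int R).comp_sub_left x
  rw [← integrable_norm_rpow_iff hm (by norm_num) (by norm_num)]
  refine h4.congr (Eventually.of_forall fun y => ?_)
  simp only
  rw [Real.norm_of_nonneg (Kc_nonneg R _), ENNReal.toReal_ofReal (by norm_num)]

/-
`|log |z|| ≤ C |z|^{-1/4}` for `z ∈ bx (2R)`, Hölder with exponents `4/3`, `4`: `∫ |G y| |x - y|^{-1/4} dy ≤ (∫ |G|^{4/3})^{3/4} (∫_{bx (2R)} 1/|z|)^{1/4}`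
and `|G|^{4/3} ≤ M^{1/3} |G|`.
-/
theorem en_le_l1 (R M : ℝ) : ∃ C : ℝ, 0 ≤ C ∧ ∀ F : Pl → ℝ, Continuous F → (∀ z, z ∉ bx R → F z = 0) →
    (∀ z, |F z| ≤ M) → |en F F| ≤ C * (∫ z, |F z|) ^ ((7 : ℝ) / 4) := by
  set C4 : ℝ := ∫ z, Kc R z ^ (4 : ℝ) with hC4
  have hC40 : 0 ≤ C4 := integral_nonneg fun z => rpow_nonneg (Kc_nonneg R z) _
  refine ⟨(|M| ^ ((1 : ℝ) / 3)) ^ ((3 : ℝ) / 4) * C4 ^ ((1 : ℝ) / 4), by positivity, ?_⟩
  intro F hF h0 hM
  have hM0 : 0 ≤ M := (abs_nonneg _).trans (hM 0)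
  have hc : HasCompactSupport F :=
    HasCompactSupport.intro (isCompact_Icc.prod isCompact_Icc) fun z hz => h0 z hz
  have hFi : Integrable F := hF.integrable_of_hasCompactSupport hc
  have hN0 : 0 ≤ ∫ z, |F z| := integral_nonneg fun _ => abs_nonneg _
  set N : ℝ := ∫ z, |F z| with hN
  -- the potential
  have hpot : ∀ x ∈ bx R, |pot F x| ≤
      (|M| ^ ((1 : ℝ) / 3) * N) ^ ((3 : ℝ) / 4) * C4 ^ ((1 : ℝ) / 4) := by
    intro x hx
    have hHC : (4 / 3 : ℝ).HolderConjugate 4 := by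
      rw [Real.holderConjugate_iff]
      norm_num
    have hFabs : MemLp (fun y => |F y|) (ENNReal.ofReal (4 / 3)) :=
      (hF.abs).memLp_of_hasCompactSupport hc.abs
    have hpt : ∀ y, ‖F y * Phi (x - y)‖ ≤ |F y| * Kc R (x - y) := by
      intro y
      rw [Real.norm_eq_abs, abs_mul]
      by_cases hy : y ∈ bx R
      · have hxy : x - y ∈ bx (2 * R) := by
          unfold bx at hx hy ⊢
          simp only [mem_prod, mem_Icc, Prod.fst_sub, Prod.snd_sub] at hx hy ⊢
          refine ⟨⟨?_, ?_⟩, ⟨?_, ?_⟩⟩ <;> linarith [hx.1.1, hx.1.2, hx.2.1, hx.2.2, hy.1.1,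
            hy.1.2, hy.2.1, hy.2.2]
        unfold Kc
        rw [indicator_of_mem hxy]
      · rw [h0 y hy]
        simp
    have hgi : Integrable (fun y => |F y| * Kc R (x - y)) := by
      refine Integrable.mono' (((Kc_int R).comp_sub_left x).const_mul M) ?_ ?_
      · exact (hF.abs.aestronglyMeasurable).mul
          (((Kc_int R).comp_sub_left x).aestronglyMeasurable)
      · refine Eventually.of_forall fun y => ?_
        rw [Real.norm_eq_abs, abs_mul, abs_abs, abs_of_nonneg (Kc_nonneg R _)]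
        exact mul_le_mul_of_nonneg_right (hM y) (Kc_nonneg R _)
    have h1 : |pot F x| ≤ ∫ y, |F y| * Kc R (x - y) := by
      unfold pot
      exact norm_integral_le_of_norm_le hgi (Eventually.of_forall hpt)
    have h2 := integral_mul_le_Lp_mul_Lq_of_nonneg (μ := (volume : Measure Pl)) hHC
      (f := fun y => |F y|) (g := fun y => Kc R (x - y))
      (Eventually.of_forall fun y => abs_nonneg _) (Eventually.of_forall fun y => Kc_nonneg R _)
      hFabs (Kc_memLp R x)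
    have h3 : ∫ y, Kc R (x - y) ^ (4 : ℝ) = C4 :=
      integral_sub_left_eq_self (fun z => Kc R z ^ (4 : ℝ)) volume x
    have h4 : ∫ y, |F y| ^ (4 / 3 : ℝ) ≤ |M| ^ ((1 : ℝ) / 3) * N := by
      rw [hN, ← integral_const_mul]
      refine integral_mono_of_nonneg (Eventually.of_forall fun y => rpow_nonneg (abs_nonneg _) _)
        (hFi.abs.const_mul _) (Eventually.of_forall fun y => ?_)
      simp only
      have e1 : |F y| ^ (4 / 3 : ℝ) = |F y| ^ ((1 : ℝ) / 3) * |F y| := by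
        have e2 : (4 / 3 : ℝ) = 1 / 3 + 1 := by norm_num
        rw [e2, rpow_add_of_nonneg (abs_nonneg _) (by norm_num) (by norm_num), rpow_one]
      rw [e1]
      refine mul_le_mul_of_nonneg_right (rpow_le_rpow (abs_nonneg _) ?_ (by norm_num))
        (abs_nonneg _)
      exact (hM y).trans (le_abs_self M)
    refine h1.trans (h2.trans ?_)
    rw [h3]
    have e3 : (1 / (4 / 3) : ℝ) = 3 / 4 := by norm_num
    rw [e3]
    refine mul_le_mul_of_nonneg_right (rpow_le_rpow ?_ h4 (by norm_num)) (by positivity)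
    exact integral_nonneg fun y => rpow_nonneg (abs_nonneg _) _
  -- conclusion
  set B : ℝ := (|M| ^ ((1 : ℝ) / 3) * N) ^ ((3 : ℝ) / 4) * C4 ^ ((1 : ℝ) / 4) with hB
  have hB0 : 0 ≤ B := by positivity
  have h5 : |en F F| ≤ ∫ x, |F x| * B := by
    rw [en_eq, ← Real.norm_eq_abs]
    refine norm_integral_le_of_norm_le (hFi.abs.mul_const _) (Eventually.of_forall fun x => ?_)
    rw [Real.norm_eq_abs, abs_mul]
    by_cases hx : x ∈ bx R
    · exact mul_le_mul_of_nonneg_left (hpot x hx) (abs_nonneg _)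
    · rw [h0 x hx]
      simp
  refine h5.trans (le_of_eq ?_)
  rw [integral_mul_const, hB, mul_rpow (by positivity) hN0]
  have e4 : N ^ ((7 : ℝ) / 4) = N ^ ((3 : ℝ) / 4) * N := by
    have e5 : (7 / 4 : ℝ) = 3 / 4 + 1 := by norm_num
    rw [e5, rpow_add_of_nonneg hN0 (by norm_num) (by norm_num), rpow_one]
  rw [e4]
  ring

end EN
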