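import Pool.Agent.Helper97.EN.KerB

/-!
Decay of the potential of a neutral function.
-/

open MeasureTheory Real Set Filter Topology

namespace EN

private lemma PotD_sqrt (z : Pl) :
    Real.sqrt (z.1 ^ 2 + z.2 ^ 2) = ‖(⟨z.1, z.2⟩ : ℂ)‖ := by
  rw [Complex.norm_eq_sqrt_sq_add_sq]

private lemma PotD_log {a b m : ℝ} (hm : 0 < m) (ha : m ≤ a) (hb : m ≤ b) :
    |Real.log a - Real.log b| ≤ |a - b| / m := by
  have ha0 : 0 < a := hm.trans_le ha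
  have hb0 : 0 < b := hm.trans_le hb
  have key : ∀ s t : ℝ, m ≤ s → m ≤ t → Real.log s - Real.log t ≤ |s - t| / m := by
    intro s t hs ht
    have hs0 : 0 < s := hm.trans_le hs
    have ht0 : 0 < t := hm.trans_le ht
    rw [← Real.log_div hs0.ne' ht0.ne']
    have h1 := Real.log_le_sub_one_of_pos (div_pos hs0 ht0)
    have h2 : s / t - 1 = (s - t) / t := by
      field_simp
    rw [h2] at h1
    refine h1.trans ?_
    have h3 : (s - t) / t ≤ |s - t| / t := div_le_div_of_nonneg_right (le_abs_self _) ht0.le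
    have h4 : |s - t| / t ≤ |s - t| / m := div_le_div_of_nonneg_left (abs_nonneg _) hm ht
    exact h3.trans h4
  rw [abs_le]
  constructor
  · have h := key b a hb ha
    rw [abs_sub_comm] at h
    linarith
  · exact key a b ha hb

/-- the kernel far away -/
private lemma PotD_ker {ρ : ℝ} (hρ : 1 ≤ ρ) {x y : Pl} (hx : 4 * ρ ≤ ‖x‖) (hy : ‖y‖ ≤ ρ) :
    |Phi (x - y) - Phi x| ≤ 4 * ρ / ‖x‖ := by
  have hx0 : 0 < ‖x‖ := by linarith
  have hxn : ‖x‖ ≤ ‖(⟨x.1, x.2⟩ : ℂ)‖ := by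
    rw [Prod.norm_def]
    refine max_le ?_ ?_
    · simpa using Complex.abs_re_le_norm (⟨x.1, x.2⟩ : ℂ)
    · simpa using Complex.abs_im_le_norm (⟨x.1, x.2⟩ : ℂ)
  have hyn : ‖(⟨y.1, y.2⟩ : ℂ)‖ ≤ 2 * ρ := by
    have h1 := Complex.norm_le_abs_re_add_abs_im (⟨y.1, y.2⟩ : ℂ)
    have h2 : |y.1| ≤ ρ := (norm_fst_le y).trans hy
    have h3 : |y.2| ≤ ρ := (norm_snd_le y).trans hy
    simp only at h1
    linarith
  have hsub : (⟨(x - y).1, (x - y).2⟩ : ℂ) = ⟨x.1, x.2⟩ - ⟨y.1, y.2⟩ := by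
    apply Complex.ext <;> simp
  have hd : |‖(⟨x.1, x.2⟩ : ℂ) - ⟨y.1, y.2⟩‖ - ‖(⟨x.1, x.2⟩ : ℂ)‖| ≤ 2 * ρ := by
    have h1 := abs_norm_sub_norm_le ((⟨x.1, x.2⟩ : ℂ) - ⟨y.1, y.2⟩) (⟨x.1, x.2⟩ : ℂ)
    refine h1.trans ?_
    have h2 : (⟨x.1, x.2⟩ : ℂ) - ⟨y.1, y.2⟩ - ⟨x.1, x.2⟩ = -⟨y.1, y.2⟩ := by ring
    rw [h2, norm_neg]
    exact hyn
  have hm : 0 < ‖x‖ / 2 := by linarith
  have ha : ‖x‖ / 2 ≤ ‖(⟨x.1, x.2⟩ : ℂ) - ⟨y.1, y.2⟩‖ := by
    have h1 := (abs_le.1 hd).1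
    linarith
  have hb : ‖x‖ / 2 ≤ ‖(⟨x.1, x.2⟩ : ℂ)‖ := by linarith
  have hl := PotD_log hm ha hb
  have hl2 : |Real.log ‖(⟨x.1, x.2⟩ : ℂ) - ⟨y.1, y.2⟩‖ - Real.log ‖(⟨x.1, x.2⟩ : ℂ)‖| ≤
      4 * ρ / ‖x‖ := by
    refine hl.trans ?_
    have h1 : |‖(⟨x.1, x.2⟩ : ℂ) - ⟨y.1, y.2⟩‖ - ‖(⟨x.1, x.2⟩ : ℂ)‖| / (‖x‖ / 2) ≤
        2 * ρ / (‖x‖ / 2) := div_le_div_of_nonneg_right hd hm.le
    refine h1.trans (le_of_eq ?_)
    field_simp
    ring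
  have hP : Phi (x - y) - Phi x = -(1 / (2 * π)) *
      (Real.log ‖(⟨x.1, x.2⟩ : ℂ) - ⟨y.1, y.2⟩‖ - Real.log ‖(⟨x.1, x.2⟩ : ℂ)‖) := by
    unfold Phi
    rw [PotD_sqrt (x - y), PotD_sqrt x, hsub]
    ring
  rw [hP, abs_mul, abs_neg]
  have hpi : |1 / (2 * π)| ≤ 1 := by
    rw [abs_of_nonneg (by positivity), div_le_one (by positivity)]
    have := Real.pi_gt_three
    linarith
  calc |1 / (2 * π)| * _ ≤ 1 * (4 * ρ / ‖x‖) :=
        mul_le_mul hpi hl2 (abs_nonneg _) zero_le_one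
    _ = 4 * ρ / ‖x‖ := one_mul _

/-
`f = 0` off `bx ρ`, `ρ ≥ 1`.  For `‖x‖ ≥ 4 ρ` (sup norm; `|x|` Euclidean norm): `pot f x = ∫ f y (Phi (x - y) - Phi x) dy` (`∫ f = 0`) and
`|log |x - y| - log |x|| ≤ 2 |y|/|x| ≤ 4 ρ/‖x‖` (as `|y| ≤ |x|/2`; `|log a - log b| ≤ |a - b|/min a b`).
For `‖x‖ ≤ 4 ρ` `pot f` is continuous, hence bounded (`pot_continuous`, compactness).
-/
theorem pot_decay {f : Pl → ℝ} (hf : Continuous f) (hc : HasCompactSupport f)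
    (h0 : ∫ z, f z = 0) : ∃ C : ℝ, 0 ≤ C ∧ ∀ x : Pl, |pot f x| ≤ C / (1 + ‖x‖) := by
  have hK : IsCompact (tsupport f) := hc
  obtain ⟨R, hR⟩ := hK.isBounded.exists_norm_le
  obtain ⟨ρ, hρd⟩ : ∃ ρ, ρ = max R 1 := ⟨_, rfl⟩
  have hρ : 1 ≤ ρ := by rw [hρd]; exact le_max_right _ _
  have hs : ∀ y, f y ≠ 0 → ‖y‖ ≤ ρ := by
    intro y hy
    rw [hρd]
    exact (hR y (subset_tsupport f hy)).trans (le_max_left _ _)
  have hfi : Integrable f := hf.integrable_of_hasCompactSupport hc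
  obtain ⟨J, hJ⟩ : ∃ J, J = ∫ y, |f y| := ⟨_, rfl⟩
  have hJ0 : 0 ≤ J := by rw [hJ]; exact integral_nonneg fun _ => abs_nonneg _
  have hpc := pot_continuous hf hc
  have hcb : IsCompact (Metric.closedBall (0 : Pl) (4 * ρ)) := isCompact_closedBall _ _
  obtain ⟨M, hM⟩ := hcb.exists_bound_of_continuousOn hpc.continuousOn
  have hM0 : 0 ≤ M := by
    have h := hM 0 (Metric.mem_closedBall_self (by linarith))
    exact (norm_nonneg _).trans h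
  refine ⟨8 * ρ * J + M * (1 + 4 * ρ), by positivity, fun x => ?_⟩
  have hx1 : 0 < 1 + ‖x‖ := by positivity
  rcases le_total ‖x‖ (4 * ρ) with hx | hx
  · have h1 := hM x (by rw [mem_closedBall_zero_iff]; exact hx)
    rw [Real.norm_eq_abs] at h1
    rw [le_div_iff₀ hx1]
    have h2 : |pot f x| * (1 + ‖x‖) ≤ M * (1 + 4 * ρ) :=
      mul_le_mul h1 (by linarith) hx1.le hM0
    have h3 : 0 ≤ 8 * ρ * J := by positivity
    linarith
  · have hx0 : 0 < ‖x‖ := by linarith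
    have hpot : pot f x = ∫ y, f y * (Phi (x - y) - Phi x) := by
      have h1 : ∫ y, f y * Phi x = 0 := by rw [integral_mul_const, h0, zero_mul]
      unfold pot
      rw [← sub_zero (∫ y, f y * Phi (x - y)), ← h1,
        ← integral_sub (ker_int1 hf hc x) (hfi.mul_const _)]
      refine integral_congr_ae (Filter.Eventually.of_forall fun y => ?_)
      simp only
      ring
    have hb : ‖∫ y, f y * (Phi (x - y) - Phi x)‖ ≤ ∫ y, |f y| * (4 * ρ / ‖x‖) := by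
      refine norm_integral_le_of_norm_le (hfi.abs.mul_const _)
        (Filter.Eventually.of_forall fun y => ?_)
      rw [Real.norm_eq_abs, abs_mul]
      by_cases hy : f y = 0
      · rw [hy, abs_zero, zero_mul, zero_mul]
      · exact mul_le_mul_of_nonneg_left (PotD_ker hρ hx (hs y hy)) (abs_nonneg _)
    rw [integral_mul_const, ← hJ, ← hpot, Real.norm_eq_abs] at hb
    refine hb.trans ?_
    rw [le_div_iff₀ hx1]
    have h2 : J * (4 * ρ / ‖x‖) * (1 + ‖x‖) ≤ 8 * ρ * J := by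
      have h3 : J * (4 * ρ / ‖x‖) * (1 + ‖x‖) = 4 * ρ * J * ((1 + ‖x‖) / ‖x‖) := by
        field_simp
      have h4 : (1 + ‖x‖) / ‖x‖ ≤ 2 := by
        rw [div_le_iff₀ hx0]
        linarith
      rw [h3]
      have h5 : 0 ≤ 4 * ρ * J := by positivity
      nlinarith [mul_le_mul_of_nonneg_left h4 h5]
    have h6 : 0 ≤ M * (1 + 4 * ρ) := by positivity
    linarith

end EN
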