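import Pool.Agent.Helper97.EN.Fund

/-!
Smoothness of the logarithmic potential.
-/

open MeasureTheory Real Set Filter Topology
open scoped Convolution

namespace EN

private lemma Phi_loc : LocallyIntegrable Phi (volume : Measure Pl) := by
  rw [locallyIntegrable_iff]
  intro K hK
  obtain ⟨R, hR⟩ := hK.isBounded.subset_closedBall (0 : Pl)
  refine (Phi_int R).mono_set (hR.trans ?_)
  intro z hz
  rw [Metric.mem_closedBall, Prod.dist_eq, max_le_iff] at hz
  unfold bx
  simp only [Prod.fst_zero, Prod.snd_zero, Real.dist_eq, sub_zero, abs_le] at hz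
  exact ⟨⟨hz.1.1, hz.1.2⟩, ⟨hz.2.1, hz.2.2⟩⟩

private lemma pot_conv (f : Pl → ℝ) :
    pot f = f ⋆[ContinuousLinearMap.mul ℝ ℝ, (volume : Measure Pl)] Phi := by
  funext x
  rfl

private lemma dir_pot {f : Pl → ℝ} (hf : ContDiff ℝ (⊤ : ℕ∞) f) (hc : HasCompactSupport f)
    (v x : Pl) : fderiv ℝ (pot f) x v = pot (fun z => fderiv ℝ f z v) x := by
  have hf1 : ContDiff ℝ 1 f := hf.of_le (by exact_mod_cast le_top)
  have h1 := (hc.hasFDerivAt_convolution_left (ContinuousLinearMap.mul ℝ ℝ) hf1 Phi_loc x).fderiv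
  rw [← pot_conv] at h1
  rw [h1]
  have hex : ConvolutionExistsAt (fderiv ℝ f) Phi x
      ((ContinuousLinearMap.mul ℝ ℝ).precompL Pl) (volume : Measure Pl) :=
    (hc.fderiv ℝ).convolutionExists_left _ (hf1.continuous_fderiv one_ne_zero) Phi_loc x
  unfold convolution
  rw [ContinuousLinearMap.integral_apply hex]
  rfl

/-
`pot f x = ∫ f y Phi (x - y) dy = (f ⋆ Phi) x` (`ContinuousLinearMap.mul`); `Phi` is locally integrable (`Phi_int`), so
`HasCompactSupport.contDiff_convolution_left` gives smoothness.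
-/
theorem pot_smooth {f : Pl → ℝ} (hf : ContDiff ℝ (⊤ : ℕ∞) f) (hc : HasCompactSupport f) :
    ContDiff ℝ (⊤ : ℕ∞) (pot f) := by
  rw [pot_conv]
  exact hc.contDiff_convolution_left (ContinuousLinearMap.mul ℝ ℝ) hf Phi_loc

/-- `HasCompactSupport.hasFDerivAt_convolution_left` -/
lemma dx_pot {f : Pl → ℝ} (hf : ContDiff ℝ (⊤ : ℕ∞) f) (hc : HasCompactSupport f) :
    dx (pot f) = pot (dx f) := by
  funext x
  exact dir_pot hf hc (1, 0) x

lemma dy_pot {f : Pl → ℝ} (hf : ContDiff ℝ (⊤ : ℕ∞) f) (hc : HasCompactSupport f) :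
    dy (pot f) = pot (dy f) := by
  funext x
  exact dir_pot hf hc (0, 1) x

theorem lap_pot {f : Pl → ℝ} (hf : ContDiff ℝ (⊤ : ℕ∞) f) (hc : HasCompactSupport f) (x : Pl) :
    lap (pot f) x = -f x := by
  have h1 : dx (dx (pot f)) = pot (dx (dx f)) := by
    rw [dx_pot hf hc, dx_pot (dx_smooth hf) (dx_supp hc)]
  have h2 : dy (dy (pot f)) = pot (dy (dy f)) := by
    rw [dy_pot hf hc, dy_pot (dy_smooth hf) (dy_supp hc)]
  unfold lap
  rw [h1, h2, ← fund hf hc x]
  unfold pot lap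
  rw [← integral_add]
  · refine integral_congr_ae (Eventually.of_forall fun y => ?_)
    simp only
    ring
  · exact ker_int1 (dx_smooth (dx_smooth hf)).continuous (dx_supp (dx_supp hc)) x
  · exact ker_int1 (dy_smooth (dy_smooth hf)).continuous (dy_supp (dy_supp hc)) x

end EN
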