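import Pool.Agent.Helper97.EN.DxE
import Pool.Agent.Helper97.EN.PotS
import Pool.Agent.Helper97.EN.PotD
import Pool.Agent.Helper97.EN.KerC

/-!
Laplacians of test functions are dense in the neutral functions for the energy norm.
-/

open MeasureTheory Real Set Filter Topology

namespace EN

private lemma mem_bx {R : ℝ} {z : Pl} : z ∈ bx R ↔ ‖z‖ ≤ R := by
  unfold bx
  rw [mem_prod, mem_Icc, mem_Icc, Prod.norm_def, max_le_iff, Real.norm_eq_abs, Real.norm_eq_abs,
    abs_le, abs_le]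

/-- a cutoff function (product of two one dimensional smooth transitions) -/
lemma exists_cut : ∃ χ : Pl → ℝ, ContDiff ℝ (⊤ : ℕ∞) χ ∧ HasCompactSupport χ ∧
    (∀ z, 0 ≤ χ z ∧ χ z ≤ 1) ∧ (∀ z : Pl, |z.1| ≤ 1 → |z.2| ≤ 1 → χ z = 1) ∧
    ∀ z : Pl, z ∉ bx 2 → χ z = 0 := by
  let b : ContDiffBump (0 : Pl) := ⟨1, 2, by norm_num, by norm_num⟩
  refine ⟨b, b.contDiff, b.hasCompactSupport, fun z => ⟨b.nonneg, b.le_one⟩, ?_, ?_⟩
  · intro z h1 h2
    refine b.one_of_mem_closedBall ?_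
    rw [mem_closedBall_zero_iff, Prod.norm_def]
    exact max_le h1 h2
  · intro z hz
    refine b.zero_of_le_dist ?_
    rw [mem_bx, not_le] at hz
    rw [dist_zero_right]
    exact hz.le

private lemma dx_mul {u v : Pl → ℝ} (hu : ContDiff ℝ (⊤ : ℕ∞) u) (hv : ContDiff ℝ (⊤ : ℕ∞) v) :
    dx (fun w => u w * v w) = fun w => u w * dx v w + v w * dx u w := by
  funext z
  have h1 : DifferentiableAt ℝ u z := (hu.differentiable (by simp)).differentiableAt
  have h2 : DifferentiableAt ℝ v z := (hv.differentiable (by simp)).differentiableAt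
  unfold dx
  rw [fderiv_fun_mul h1 h2]
  simp

private lemma dy_mul {u v : Pl → ℝ} (hu : ContDiff ℝ (⊤ : ℕ∞) u) (hv : ContDiff ℝ (⊤ : ℕ∞) v) :
    dy (fun w => u w * v w) = fun w => u w * dy v w + v w * dy u w := by
  funext z
  have h1 : DifferentiableAt ℝ u z := (hu.differentiable (by simp)).differentiableAt
  have h2 : DifferentiableAt ℝ v z := (hv.differentiable (by simp)).differentiableAt
  unfold dy
  rw [fderiv_fun_mul h1 h2]
  simp

private lemma dx_add {u v : Pl → ℝ} (hu : ContDiff ℝ (⊤ : ℕ∞) u) (hv : ContDiff ℝ (⊤ : ℕ∞) v) :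
    dx (fun w => u w + v w) = fun w => dx u w + dx v w := by
  funext z
  have h1 : DifferentiableAt ℝ u z := (hu.differentiable (by simp)).differentiableAt
  have h2 : DifferentiableAt ℝ v z := (hv.differentiable (by simp)).differentiableAt
  unfold dx
  rw [fderiv_fun_add h1 h2]
  simp

private lemma dy_add {u v : Pl → ℝ} (hu : ContDiff ℝ (⊤ : ℕ∞) u) (hv : ContDiff ℝ (⊤ : ℕ∞) v) :
    dy (fun w => u w + v w) = fun w => dy u w + dy v w := by
  funext z
  have h1 : DifferentiableAt ℝ u z := (hu.differentiable (by simp)).differentiableAt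
  have h2 : DifferentiableAt ℝ v z := (hv.differentiable (by simp)).differentiableAt
  unfold dy
  rw [fderiv_fun_add h1 h2]
  simp

private lemma dx_cmul (c : ℝ) {u : Pl → ℝ} (hu : ContDiff ℝ (⊤ : ℕ∞) u) :
    dx (fun w => c * u w) = fun w => c * dx u w := by
  funext z
  have h1 : DifferentiableAt ℝ u z := (hu.differentiable (by simp)).differentiableAt
  unfold dx
  rw [fderiv_const_mul h1]
  simp

private lemma dy_cmul (c : ℝ) {u : Pl → ℝ} (hu : ContDiff ℝ (⊤ : ℕ∞) u) :
    dy (fun w => c * u w) = fun w => c * dy u w := by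
  funext z
  have h1 : DifferentiableAt ℝ u z := (hu.differentiable (by simp)).differentiableAt
  unfold dy
  rw [fderiv_const_mul h1]
  simp

private lemma lap_mul {u v : Pl → ℝ} (hu : ContDiff ℝ (⊤ : ℕ∞) u) (hv : ContDiff ℝ (⊤ : ℕ∞) v)
    (z : Pl) : lap (fun w => u w * v w) z =
      u z * lap v z + 2 * (dx u z * dx v z + dy u z * dy v z) + v z * lap u z := by
  have hux := dx_smooth hu
  have hvx := dx_smooth hv
  have huy := dy_smooth hu
  have hvy := dy_smooth hv
  unfold lap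
  rw [dx_mul hu hv, dy_mul hu hv, dx_add (hu.mul hvx) (hv.mul hux),
    dy_add (hu.mul hvy) (hv.mul huy), dx_mul hu hvx, dx_mul hv hux, dy_mul hu hvy, dy_mul hv huy]
  ring

/-- product rule -/
lemma lap_prod {u v : Pl → ℝ} (hu : ContDiff ℝ (⊤ : ℕ∞) u) (hv : ContDiff ℝ (⊤ : ℕ∞) v) (z : Pl) :
    lap (fun w => u w * v w) z =
      dx (fun w => 2 * (u w * dx v w)) z + dy (fun w => 2 * (u w * dy v w)) z - u z * lap v z +
        v z * lap u z := by
  have hvx := dx_smooth hv
  have hvy := dy_smooth hv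
  rw [lap_mul hu hv, dx_cmul 2 (hu.mul hvx), dy_cmul 2 (hu.mul hvy), dx_mul hu hvx, dy_mul hu hvy]
  unfold lap
  ring

private lemma lap_neg (u : Pl → ℝ) (z : Pl) : lap (fun w => -u w) z = -lap u z := by
  have h1 : dx (fun w => -u w) = fun w => -dx u w := by
    funext z
    unfold dx
    rw [fderiv_fun_neg]
    simp
  have h2 : dy (fun w => -u w) = fun w => -dy u w := by
    funext z
    unfold dy
    rw [fderiv_fun_neg]
    simp
  have h3 : dx (fun w => -dx u w) z = -dx (dx u) z := by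
    unfold dx
    rw [fderiv_fun_neg]
    simp
  have h4 : dy (fun w => -dy u w) z = -dy (dy u) z := by
    unfold dy
    rw [fderiv_fun_neg]
    simp
  unfold lap
  rw [h1, h2, h3, h4]
  ring

private lemma dx_dil (u : Pl → ℝ) (r : ℝ) :
    dx (fun z => u (r • z)) = fun z => r * dx u (r • z) := by
  funext z
  unfold dx
  rw [fderiv_comp_smul]
  simp

private lemma dy_dil (u : Pl → ℝ) (r : ℝ) :
    dy (fun z => u (r • z)) = fun z => r * dy u (r • z) := by
  funext z
  unfold dy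
  rw [fderiv_comp_smul]
  simp

private lemma smooth_dil {u : Pl → ℝ} (hu : ContDiff ℝ (⊤ : ℕ∞) u) (r : ℝ) :
    ContDiff ℝ (⊤ : ℕ∞) (fun z => u (r • z)) :=
  hu.comp (contDiff_const_smul r)

private lemma lap_dil {u : Pl → ℝ} (hu : ContDiff ℝ (⊤ : ℕ∞) u) (r : ℝ) (z : Pl) :
    lap (fun z => u (r • z)) z = r ^ 2 * lap u (r • z) := by
  unfold lap
  rw [dx_dil, dy_dil, dx_cmul r (smooth_dil (dx_smooth hu) r),
    dy_cmul r (smooth_dil (dy_smooth hu) r), dx_dil, dy_dil]
  ring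

/-- derivatives vanish where the function is locally constant -/
private lemma der_zero {u : Pl → ℝ} {c : ℝ} {U : Set Pl} (hU : IsOpen U) (h : ∀ z ∈ U, u z = c) :
    ∀ z ∈ U, dx u z = 0 ∧ dy u z = 0 ∧ lap u z = 0 := by
  have key : ∀ v : Pl → ℝ, ∀ c : ℝ, (∀ z ∈ U, v z = c) → ∀ z ∈ U, dx v z = 0 ∧ dy v z = 0 := by
    intro v c hv z hz
    have h1 : v =ᶠ[𝓝 z] fun _ => c := by
      filter_upwards [hU.mem_nhds hz] with w hw
      exact hv w hw
    unfold dx dy
    rw [h1.fderiv_eq]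
    simp
  intro z hz
  have h1 := key u c h z hz
  have h2 := key (dx u) 0 (fun w hw => (key u c h w hw).1) z hz
  have h3 := key (dy u) 0 (fun w hw => (key u c h w hw).2) z hz
  refine ⟨h1.1, h1.2, ?_⟩
  unfold lap
  rw [h2.1, h3.2, add_zero]

private lemma int_bx_le {h : Pl → ℝ} {K R : ℝ} (hR : 0 ≤ R) (h0 : ∀ z, z ∉ bx R → h z = 0)
    (hK : ∀ z, |h z| ≤ K) : ∫ z, h z ≤ K * (2 * R) ^ 2 := by
  rw [← setIntegral_eq_integral_of_forall_compl_eq_zero h0]
  have hv : volume (bx R) = ENNReal.ofReal ((2 * R) ^ 2) := by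
    unfold bx
    rw [Measure.volume_eq_prod, Measure.prod_prod, Real.volume_Icc,
      ← ENNReal.ofReal_mul (by linarith)]
    congr 1
    ring
  have h1 : ‖∫ z in bx R, h z‖ ≤ K * volume.real (bx R) :=
    norm_setIntegral_le_of_norm_le_const (by rw [hv]; exact ENNReal.ofReal_lt_top)
      (fun z _ => hK z)
  rw [Measure.real, hv, ENNReal.toReal_ofReal (by positivity)] at h1
  exact (Real.le_norm_self _).trans h1

/-
`u = pot f`, `|u z| ≤ C/(1+‖z‖)`, `χ` from `exists_cut`, `χ_R z = χ (z/R)`, `g = - χ_R u`.  For `f = 0` off `bx R`, `R ≥ 1`: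
`f - lap g = f + lap (u χ_R) = dx (2 u dx χ_R) + dy (2 u dy χ_R) - u lap χ_R` (`lap_prod`, `lap_pot`, `χ_R f = f`).
`en_three`; `en_dx_le`: `∫ (2 u dx χ_R)² ≤ 4 (C/R)² (C/R)² (4R)² → 0` (`dx χ_R` lives on `R ≤ ‖z‖ ≤ 2R`).
`w = u lap χ_R` is neutral (difference of neutral functions) and `|w| ≤ C/R³`, `w = 0` off `bx (2R)`: `W z = R³ w (R z)` is bounded by `C`, `0` off
`bx 2`, so `en W W ≤ C'` (`en_le_l1`), and `en w w = R⁴ R⁻⁶ en W W` (`en_dil`) `≤ C'/R²`.
-/
theorem density {f : Pl → ℝ} (hf : ContDiff ℝ (⊤ : ℕ∞) f) (hc : HasCompactSupport f)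
    (h0 : ∫ z, f z = 0) {ε : ℝ} (hε : 0 < ε) :
    ∃ g : Pl → ℝ, ContDiff ℝ (⊤ : ℕ∞) g ∧ HasCompactSupport g ∧
      en (fun z => f z - lap g z) (fun z => f z - lap g z) < ε := by
  obtain ⟨χ, hχ, hχc, -, hχ1, hχ0⟩ := exists_cut
  have hu : ContDiff ℝ (⊤ : ℕ∞) (pot f) := pot_smooth hf hc
  obtain ⟨C, hC0, hC⟩ := pot_decay hf.continuous hc h0
  obtain ⟨B1, hB1⟩ := (dx_smooth hχ).continuous.bounded_above_of_compact_support (dx_supp hχc)
  obtain ⟨B2, hB2⟩ := (dy_smooth hχ).continuous.bounded_above_of_compact_support (dy_supp hχc)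
  obtain ⟨B3, hB3⟩ := (lap_smooth hχ).continuous.bounded_above_of_compact_support (lap_supp hχc)
  have hB10 : 0 ≤ B1 := (norm_nonneg _).trans (hB1 0)
  have hB20 : 0 ≤ B2 := (norm_nonneg _).trans (hB2 0)
  have hB30 : 0 ≤ B3 := (norm_nonneg _).trans (hB3 0)
  obtain ⟨ρ, hρ⟩ := (show IsCompact (tsupport f) from hc).isBounded.exists_norm_le
  obtain ⟨E, hE0, hE⟩ := en_le_l1 2 (C * B3)
  have hin := der_zero (u := χ) (c := 1) (U := {z | ‖z‖ < 1})
    (isOpen_lt continuous_norm continuous_const)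
    (fun z hz => hχ1 z ((norm_fst_le z).trans (le_of_lt hz)) ((norm_snd_le z).trans (le_of_lt hz)))
  have hout := der_zero (u := χ) (c := 0) (U := {z | 2 < ‖z‖})
    (isOpen_lt continuous_const continuous_norm)
    (fun z hz => hχ0 z (fun h => absurd (mem_bx.1 h) (not_le.2 hz)))
  obtain ⟨K1, hK1⟩ : ∃ K, K = (2 * C * B1) ^ 2 * 16 := ⟨_, rfl⟩
  obtain ⟨K2, hK2⟩ : ∃ K, K = (2 * C * B2) ^ 2 * 16 := ⟨_, rfl⟩
  obtain ⟨K3, hK3⟩ : ∃ K, K = E * (C * B3 * (2 * 2) ^ 2) ^ ((7 : ℝ) / 4) := ⟨_, rfl⟩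
  have hK10 : 0 ≤ K1 := by rw [hK1]; positivity
  have hK20 : 0 ≤ K2 := by rw [hK2]; positivity
  have hK30 : 0 ≤ K3 := by rw [hK3]; positivity
  obtain ⟨R, hRd⟩ : ∃ R, R = max (max 1 ρ) (3 * (K1 + K2 + K3) / ε + 1) := ⟨_, rfl⟩
  have hR1 : 1 ≤ R := by rw [hRd]; exact (le_max_left _ _).trans (le_max_left _ _)
  have hRρ : ρ ≤ R := by rw [hRd]; exact (le_max_right _ _).trans (le_max_left _ _)
  have hRK : 3 * (K1 + K2 + K3) / ε + 1 ≤ R := by rw [hRd]; exact le_max_right _ _
  have hR0 : 0 < R := lt_of_lt_of_le one_pos hR1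
  have hr0 : 0 < R⁻¹ := inv_pos.2 hR0
  -- the dilated cutoff
  obtain ⟨χR, hχR⟩ : ∃ v : Pl → ℝ, v = fun z => χ (R⁻¹ • z) := ⟨_, rfl⟩
  have hs : ContDiff ℝ (⊤ : ℕ∞) χR := by rw [hχR]; exact smooth_dil hχ _
  have hsc : HasCompactSupport χR := by rw [hχR]; exact hχc.comp_smul hr0.ne'
  have hdx : ∀ z, dx χR z = R⁻¹ * dx χ (R⁻¹ • z) := by intro z; rw [hχR, dx_dil]
  have hdy : ∀ z, dy χR z = R⁻¹ * dy χ (R⁻¹ • z) := by intro z; rw [hχR, dy_dil]
  have hlap : ∀ z, lap χR z = R⁻¹ ^ 2 * lap χ (R⁻¹ • z) := by intro z; rw [hχR, lap_dil hχ]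
  have hnr : ∀ z : Pl, ‖R⁻¹ • z‖ = R⁻¹ * ‖z‖ := by
    intro z
    rw [norm_smul, Real.norm_eq_abs, abs_of_pos hr0]
  have hnear : ∀ z : Pl, ‖z‖ < R → ‖R⁻¹ • z‖ < 1 := by
    intro z hz
    rw [hnr, inv_mul_lt_iff₀ hR0, mul_one]
    exact hz
  have hfar : ∀ z : Pl, z ∉ bx (2 * R) → 2 < ‖R⁻¹ • z‖ := by
    intro z hz
    rw [mem_bx, not_le] at hz
    rw [hnr, lt_inv_mul_iff₀ hR0]
    linarith
  have hpot : ∀ z : Pl, R ≤ ‖z‖ → |pot f z| ≤ C / R := by
    intro z hz
    refine (hC z).trans ?_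
    exact div_le_div_of_nonneg_left hC0 hR0 (by linarith)
  -- the pieces
  obtain ⟨a, ha⟩ : ∃ v : Pl → ℝ, v = fun w => 2 * (pot f w * dx χR w) := ⟨_, rfl⟩
  obtain ⟨b, hb⟩ : ∃ v : Pl → ℝ, v = fun w => 2 * (pot f w * dy χR w) := ⟨_, rfl⟩
  obtain ⟨w, hw⟩ : ∃ v : Pl → ℝ, v = fun z => -(pot f z * lap χR z) := ⟨_, rfl⟩
  have has : ContDiff ℝ (⊤ : ℕ∞) a := by
    rw [ha]; exact contDiff_const.mul (hu.mul (dx_smooth hs))
  have hbs : ContDiff ℝ (⊤ : ℕ∞) b := by
    rw [hb]; exact contDiff_const.mul (hu.mul (dy_smooth hs))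
  have hws : ContDiff ℝ (⊤ : ℕ∞) w := by
    rw [hw]; exact (hu.mul (lap_smooth hs)).neg
  have hac : HasCompactSupport a := by
    refine (dx_supp hsc).mono fun z hz => ?_
    rw [Function.mem_support] at hz ⊢
    intro h
    exact hz (by rw [ha]; simp only; rw [h]; ring)
  have hbc : HasCompactSupport b := by
    refine (dy_supp hsc).mono fun z hz => ?_
    rw [Function.mem_support] at hz ⊢
    intro h
    exact hz (by rw [hb]; simp only; rw [h]; ring)
  have hwc : HasCompactSupport w := by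
    refine (lap_supp hsc).mono fun z hz => ?_
    rw [Function.mem_support] at hz ⊢
    intro h
    exact hz (by rw [hw]; simp only; rw [h]; ring)
  obtain ⟨g, hg⟩ : ∃ v : Pl → ℝ, v = fun z => -(pot f z * χR z) := ⟨_, rfl⟩
  have hgs : ContDiff ℝ (⊤ : ℕ∞) g := by rw [hg]; exact (hu.mul hs).neg
  have hgc : HasCompactSupport g := by
    refine hsc.mono fun z hz => ?_
    rw [Function.mem_support] at hz ⊢
    intro h
    exact hz (by rw [hg]; simp only; rw [h]; ring)
  have hcf : ∀ z, χR z * f z = f z := by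
    intro z
    by_cases hz : f z = 0
    · rw [hz, mul_zero]
    · have h1 : ‖z‖ ≤ R := (hρ z (subset_tsupport f hz)).trans hRρ
      have h2 : ‖R⁻¹ • z‖ ≤ 1 := by
        rw [hnr, inv_mul_le_iff₀ hR0, mul_one]
        exact h1
      have h3 : χR z = 1 := by
        rw [hχR]
        exact hχ1 _ ((norm_fst_le _).trans h2) ((norm_snd_le _).trans h2)
      rw [h3, one_mul]
  have hfun : ∀ z, f z - lap g z = dx a z + dy b z + w z := by
    intro z
    have h1 : lap g z = -lap (fun w => pot f w * χR w) z := by rw [hg]; exact lap_neg _ z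
    rw [h1, lap_prod hu hs, lap_pot hf hc, ha, hb, hw]
    have h2 := hcf z
    simp only
    linear_combination -h2
  have hw0 : ∫ z, w z = 0 := by
    have h1 : ∀ z, w z = f z - lap g z - dx a z - dy b z := by
      intro z
      rw [hfun z]
      ring
    have i1 : Integrable f := hf.continuous.integrable_of_hasCompactSupport hc
    have i2 : Integrable (lap g) :=
      (lap_smooth hgs).continuous.integrable_of_hasCompactSupport (lap_supp hgc)
    have i3 : Integrable (dx a) :=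
      (dx_smooth has).continuous.integrable_of_hasCompactSupport (dx_supp hac)
    have i4 : Integrable (dy b) :=
      (dy_smooth hbs).continuous.integrable_of_hasCompactSupport (dy_supp hbc)
    have i12 : Integrable (fun z => f z - lap g z) := i1.sub i2
    have i123 : Integrable (fun z => f z - lap g z - dx a z) := i12.sub i3
    rw [integral_congr_ae (Eventually.of_forall h1), integral_sub i123 i4,
      integral_sub i12 i3, integral_sub i1 i2, h0, int_lap hgs hgc, int_dx has hac,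
      int_dy hbs hbc]
    norm_num
  have hone : (1 : WithTop ℕ∞) ≤ ((⊤ : ℕ∞) : WithTop ℕ∞) := by exact_mod_cast le_top
  have hthree := en_three ((dx_smooth has).of_le hone) (dx_supp hac) (int_dx has hac)
    ((dy_smooth hbs).of_le hone) (dy_supp hbc) (int_dy hbs hbc) (hws.of_le hone) hwc hw0
  -- bounds of the first two terms
  have e1 : en (dx a) (dx a) ≤ K1 / R ^ 2 := by
    refine (en_dx_le has hac).trans ?_
    have hb1 : ∀ z, |a z ^ 2| ≤ (2 * (C / R * (R⁻¹ * B1))) ^ 2 := by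
      intro z
      rw [abs_of_nonneg (sq_nonneg _), ← sq_abs (a z)]
      refine pow_le_pow_left₀ (abs_nonneg _) ?_ 2
      rw [ha]
      simp only
      rw [abs_mul, abs_mul, abs_two]
      by_cases hz : ‖z‖ < R
      · rw [hdx, (hin _ (hnear z hz)).1, mul_zero, abs_zero, mul_zero, mul_zero]
        positivity
      · refine mul_le_mul_of_nonneg_left ?_ (by norm_num)
        refine mul_le_mul (hpot z (not_lt.1 hz)) ?_ (abs_nonneg _) (by positivity)
        rw [hdx, abs_mul, abs_of_pos hr0]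
        exact mul_le_mul_of_nonneg_left (hB1 _) hr0.le
    have hb0 : ∀ z, z ∉ bx (2 * R) → a z ^ 2 = 0 := by
      intro z hz
      rw [ha]
      simp only
      rw [hdx, (hout _ (hfar z hz)).1]
      ring
    refine (int_bx_le (by positivity) hb0 hb1).trans (le_of_eq ?_)
    rw [hK1]
    field_simp
    ring
  have e2 : en (dy b) (dy b) ≤ K2 / R ^ 2 := by
    refine (en_dy_le hbs hbc).trans ?_
    have hb1 : ∀ z, |b z ^ 2| ≤ (2 * (C / R * (R⁻¹ * B2))) ^ 2 := by
      intro z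
      rw [abs_of_nonneg (sq_nonneg _), ← sq_abs (b z)]
      refine pow_le_pow_left₀ (abs_nonneg _) ?_ 2
      rw [hb]
      simp only
      rw [abs_mul, abs_mul, abs_two]
      by_cases hz : ‖z‖ < R
      · rw [hdy, (hin _ (hnear z hz)).2.1, mul_zero, abs_zero, mul_zero, mul_zero]
        positivity
      · refine mul_le_mul_of_nonneg_left ?_ (by norm_num)
        refine mul_le_mul (hpot z (not_lt.1 hz)) ?_ (abs_nonneg _) (by positivity)
        rw [hdy, abs_mul, abs_of_pos hr0]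
        exact mul_le_mul_of_nonneg_left (hB2 _) hr0.le
    have hb0 : ∀ z, z ∉ bx (2 * R) → b z ^ 2 = 0 := by
      intro z hz
      rw [hb]
      simp only
      rw [hdy, (hout _ (hfar z hz)).2.1]
      ring
    refine (int_bx_le (by positivity) hb0 hb1).trans (le_of_eq ?_)
    rw [hK2]
    field_simp
    ring
  -- the third term
  have e3 : en w w ≤ K3 / R ^ 2 := by
    obtain ⟨V, hV⟩ : ∃ v : Pl → ℝ, v = fun z => R ^ 3 * w (R * z.1, R * z.2) := ⟨_, rfl⟩
    have hRz : ∀ z : Pl, R⁻¹ • ((R * z.1, R * z.2) : Pl) = z := by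
      intro z
      refine Prod.ext ?_ ?_
      · simp only [Prod.smul_mk, smul_eq_mul]
        field_simp
      · simp only [Prod.smul_mk, smul_eq_mul]
        field_simp
    have hVz : ∀ z, V z = -(R * (pot f (R * z.1, R * z.2) * lap χ z)) := by
      intro z
      rw [hV, hw]
      simp only
      rw [hlap, hRz]
      field_simp
    have hVc : Continuous V := by
      rw [hV]
      exact continuous_const.mul (hws.continuous.comp (by fun_prop))
    have hV0 : ∀ z, z ∉ bx 2 → V z = 0 := by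
      intro z hz
      rw [mem_bx, not_le] at hz
      rw [hVz, (hout z hz).2.2]
      ring
    have hVb : ∀ z, |V z| ≤ C * B3 := by
      intro z
      rw [hVz, abs_neg, abs_mul, abs_mul, abs_of_pos hR0]
      by_cases hz : ‖z‖ < 1
      · rw [(hin z hz).2.2, abs_zero, mul_zero, mul_zero]
        positivity
      · have h1 : R ≤ ‖((R * z.1, R * z.2) : Pl)‖ := by
          have h2 : ((R * z.1, R * z.2) : Pl) = R • z := rfl
          rw [h2, norm_smul, Real.norm_eq_abs, abs_of_pos hR0]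
          exact le_mul_of_one_le_right hR0.le (not_lt.1 hz)
        have h3 := hpot _ h1
        have h4 : |lap χ z| ≤ B3 := hB3 z
        calc R * (|pot f (R * z.1, R * z.2)| * |lap χ z|) ≤ R * (C / R * B3) :=
              mul_le_mul_of_nonneg_left (mul_le_mul h3 h4 (abs_nonneg _) (by positivity)) hR0.le
          _ = C * B3 := by field_simp
    have h1 := hE V hVc hV0 hVb
    have h2 : ∫ z, |V z| ≤ C * B3 * (2 * 2) ^ 2 :=
      int_bx_le (by norm_num) (fun z hz => by rw [hV0 z hz, abs_zero])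
        (fun z => by rw [abs_abs]; exact hVb z)
    have h3 : |en V V| ≤ K3 := by
      rw [hK3]
      exact h1.trans (mul_le_mul_of_nonneg_left
        (Real.rpow_le_rpow (integral_nonneg fun z => abs_nonneg _) h2 (by norm_num)) hE0)
    have h4 : en V V = R ^ 2 * en w w := by
      rw [hV, en_smul_left, en_smul_right, en_dil hws.continuous hwc hw0 hR0]
      field_simp
    rw [h4] at h3
    rw [le_div_iff₀ (by positivity), mul_comm]
    exact (le_abs_self _).trans h3
  refine ⟨g, hgs, hgc, ?_⟩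
  have hfe : (fun z => f z - lap g z) = fun z => dx a z + dy b z + w z := funext hfun
  rw [hfe]
  refine lt_of_le_of_lt hthree ?_
  have h5 : 3 * (en (dx a) (dx a) + en (dy b) (dy b) + en w w) ≤
      3 * (K1 / R ^ 2 + K2 / R ^ 2 + K3 / R ^ 2) := by linarith
  refine lt_of_le_of_lt h5 ?_
  have h6 : 3 * (K1 / R ^ 2 + K2 / R ^ 2 + K3 / R ^ 2) = 3 * (K1 + K2 + K3) / R ^ 2 := by
    field_simp
  rw [h6, div_lt_iff₀ (by positivity)]
  have h7 : 3 * (K1 + K2 + K3) / ε < R := by linarith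
  rw [div_lt_iff₀ hε] at h7
  have h8 : R ≤ R ^ 2 := by nlinarith
  calc 3 * (K1 + K2 + K3) < R * ε := h7
    _ ≤ R ^ 2 * ε := mul_le_mul_of_nonneg_right h8 hε.le
    _ = ε * R ^ 2 := mul_comm _ _

end EN
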