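import Pool.Agent.Helper27.GF.Ax
import Pool.Agent.Helper97.EN.Dens

/-!
Block E of project GF in the notation of `Pool.Agent.Helper27.GF.Ax`.
-/

open MeasureTheory Real Set Filter Topology

namespace GF

lemma dx_en (f : Pl → ℝ) : EN.dx f = dx f := rfl

lemma dy_en (f : Pl → ℝ) : EN.dy f = dy f := rfl

lemma lap_en (f : Pl → ℝ) : EN.lap f = lap f := rfl

lemma energy2_en (f g : Pl → ℝ) : EN.en f g = energy2 f g := rfl

theorem energy2_lap_left {g F : Pl → ℝ} (hg : Cc g) (hF : Cc F) :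
    energy2 (lap g) F = -∫ z, g z * F z :=
  EN.en_lap_left hg.smooth hg.supp hF.smooth.continuous hF.supp

theorem energy2_lap_lap {u v : Pl → ℝ} (hu : Cc u) (hv : Cc v) :
    energy2 (lap u) (lap v) = ∫ z, (dx u z * dx v z + dy u z * dy v z) :=
  EN.en_lap_lap hu.smooth hu.supp hv.smooth hv.supp

theorem energy2_symm {f g : Pl → ℝ} (hf : Cc f) (hg : Cc g) : energy2 f g = energy2 g f :=
  EN.en_symm hf.smooth.continuous hf.supp hg.smooth.continuous hg.supp

theorem energy2_add_left {f f' g : Pl → ℝ} (hf : Cc f) (hf' : Cc f') (hg : Cc g) :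
    energy2 (fun z => f z + f' z) g = energy2 f g + energy2 f' g :=
  EN.en_add_left hf.smooth.continuous hf.supp hf'.smooth.continuous hf'.supp
    hg.smooth.continuous hg.supp

theorem energy2_add_right {f f' g : Pl → ℝ} (hf : Cc f) (hf' : Cc f') (hg : Cc g) :
    energy2 g (fun z => f z + f' z) = energy2 g f + energy2 g f' :=
  EN.en_add_right hf.smooth.continuous hf.supp hf'.smooth.continuous hf'.supp
    hg.smooth.continuous hg.supp

theorem energy2_smul_left (c : ℝ) (f g : Pl → ℝ) : energy2 (fun z => c * f z) g = c * energy2 f g :=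
  EN.en_smul_left c f g

theorem energy2_smul_right (c : ℝ) (f g : Pl → ℝ) :
    energy2 f (fun z => c * g z) = c * energy2 f g :=
  EN.en_smul_right c f g

theorem energy2_nonneg {f : Pl → ℝ} (hf : Ne f) : 0 ≤ energy2 f f :=
  EN.en_nonneg (hf.smooth.of_le (by exact_mod_cast le_top)) hf.supp hf.zero

theorem energy2_cs {f g : Pl → ℝ} (hf : Ne f) (hg : Ne g) :
    energy2 f g ^ 2 ≤ energy2 f f * energy2 g g :=
  EN.en_cs (hf.smooth.of_le (by exact_mod_cast le_top)) hf.supp hf.zero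
    (hg.smooth.of_le (by exact_mod_cast le_top)) hg.supp hg.zero

theorem sqrt_energy2_add {f g : Pl → ℝ} (hf : Ne f) (hg : Ne g) :
    √(energy2 (fun z => f z + g z) (fun z => f z + g z)) ≤ √(energy2 f f) + √(energy2 g g) :=
  EN.en_tri (hf.smooth.of_le (by exact_mod_cast le_top)) hf.supp hf.zero
    (hg.smooth.of_le (by exact_mod_cast le_top)) hg.supp hg.zero

theorem energy2_dx_le {a : Pl → ℝ} (ha : Cc a) : energy2 (dx a) (dx a) ≤ ∫ x, a x ^ 2 :=
  EN.en_dx_le ha.smooth ha.supp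

theorem energy2_dy_le {a : Pl → ℝ} (ha : Cc a) : energy2 (dy a) (dy a) ≤ ∫ x, a x ^ 2 :=
  EN.en_dy_le ha.smooth ha.supp

/-- the norm of a bounded function in a box is controlled by a power of its `L¹` norm -/
theorem nrm_le_l1 (R M : ℝ) : ∃ C : ℝ, 0 ≤ C ∧ ∀ F : Pl → ℝ, Cc F →
    (∀ z : Pl, z ∉ Icc (-R) R ×ˢ Icc (-R) R → F z = 0) → (∀ z, |F z| ≤ M) →
    nrm F ≤ C * (∫ z, |F z|) ^ ((7 : ℝ) / 8) := by
  obtain ⟨C, hC, h⟩ := EN.en_le_l1 R M
  set B : Set Pl := Icc (-R) R ×ˢ Icc (-R) R with hB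
  have hBc : IsCompact B := isCompact_Icc.prod isCompact_Icc
  set T : ℝ := |M| * (volume B).toReal with hT
  have hT0 : 0 ≤ T := mul_nonneg (abs_nonneg _) ENNReal.toReal_nonneg
  refine ⟨√C + T ^ ((1 : ℝ) / 8), by positivity, fun F hF h0 hM => ?_⟩
  set t : ℝ := ∫ z, |F z| with ht
  have ht0 : 0 ≤ t := integral_nonneg fun _ => abs_nonneg _
  have htT : t ≤ T := by
    have e1 : t ≤ ∫ z, B.indicator (fun _ => |M|) z := by
      refine integral_mono_of_nonneg (Eventually.of_forall fun _ => abs_nonneg _) ?_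
        (Eventually.of_forall fun z => ?_)
      · exact (integrable_indicator_iff hBc.measurableSet).2
          (integrableOn_const (hs := hBc.measure_lt_top.ne))
      · show |F z| ≤ B.indicator (fun _ => |M|) z
        by_cases hz : z ∈ B
        · rw [indicator_of_mem hz]
          exact (hM z).trans (le_abs_self M)
        · rw [indicator_of_notMem hz, h0 z hz, abs_zero]
    have e2 : ∫ z, B.indicator (fun _ => |M|) z = T := by
      rw [integral_indicator hBc.measurableSet, setIntegral_const, hT, smul_eq_mul, mul_comm]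
      rfl
    linarith
  have h1 : √(energy2 F F) ≤ √C * t ^ ((7 : ℝ) / 8) := by
    have e1 : energy2 F F ≤ C * t ^ ((7 : ℝ) / 4) :=
      (le_abs_self _).trans (h F hF.smooth.continuous h0 hM)
    have e2 : t ^ ((7 : ℝ) / 4) = (t ^ ((7 : ℝ) / 8)) ^ 2 := by
      rw [← Real.rpow_natCast, ← Real.rpow_mul ht0]
      norm_num
    calc √(energy2 F F) ≤ √(C * t ^ ((7 : ℝ) / 4)) := Real.sqrt_le_sqrt e1
      _ = √C * t ^ ((7 : ℝ) / 8) := by
        rw [Real.sqrt_mul hC, e2, Real.sqrt_sq (Real.rpow_nonneg ht0 _)]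
  have h2 : t ≤ T ^ ((1 : ℝ) / 8) * t ^ ((7 : ℝ) / 8) := by
    have e1 : t = t ^ ((1 : ℝ) / 8) * t ^ ((7 : ℝ) / 8) := by
      rw [← Real.rpow_add_of_nonneg ht0 (by norm_num) (by norm_num)]
      norm_num
    calc t = t ^ ((1 : ℝ) / 8) * t ^ ((7 : ℝ) / 8) := e1
      _ ≤ T ^ ((1 : ℝ) / 8) * t ^ ((7 : ℝ) / 8) :=
        mul_le_mul_of_nonneg_right (Real.rpow_le_rpow ht0 htT (by norm_num))
          (Real.rpow_nonneg ht0 _)
  unfold nrm
  rw [← ht, add_mul]
  exact add_le_add h1 h2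

/-- density -/
theorem energy2_density {f : Pl → ℝ} (hf : Ne f) {ε : ℝ} (hε : 0 < ε) :
    ∃ g : Pl → ℝ, Cc g ∧ energy2 (fun z => f z - lap g z) (fun z => f z - lap g z) < ε := by
  obtain ⟨g, h1, h2, h3⟩ := EN.density hf.smooth hf.supp hf.zero hε
  exact ⟨g, ⟨h1, h2⟩, h3⟩

end GF
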