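import Pool.Agent.Helper97.EN.Defs

/-!
The approximate identity.
-/

open MeasureTheory Real Set Filter Topology

namespace EN

private lemma mass_radial : ∫ r in Ioi (0 : ℝ), r / (π * (r ^ 2 + 1) ^ 2) = 1 / (2 * π) := by
  have hd : ∀ x ∈ Ici (0 : ℝ), HasDerivAt (fun r : ℝ => -(1 / (2 * π)) * (r ^ 2 + 1)⁻¹)
      (x / (π * (x ^ 2 + 1) ^ 2)) x := by
    intro x _
    have hx : x ^ 2 + 1 ≠ 0 := by positivity
    have h1 : HasDerivAt (fun r : ℝ => r ^ 2 + 1) (2 * x) x := by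
      simpa using (hasDerivAt_pow 2 x).add_const 1
    have h2 := (h1.inv hx).const_mul (-(1 / (2 * π)))
    have h3 : -(1 / (2 * π)) * (-(2 * x) / (x ^ 2 + 1) ^ 2) = x / (π * (x ^ 2 + 1) ^ 2) := by
      have := Real.pi_ne_zero
      field_simp
    rw [← h3]
    exact h2
  have hl : Tendsto (fun r : ℝ => -(1 / (2 * π)) * (r ^ 2 + 1)⁻¹) atTop (𝓝 0) := by
    have h1 : Tendsto (fun r : ℝ => r ^ 2 + 1) atTop atTop :=
      tendsto_atTop_add_const_right _ _ (tendsto_pow_atTop (by norm_num))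
    simpa using h1.inv_tendsto_atTop.const_mul (-(1 / (2 * π)))
  rw [integral_Ioi_of_hasDerivAt_of_nonneg' hd (fun x hx => ?_) hl]
  · simp
  · have : (0 : ℝ) < x := hx
    positivity

/-
Polar coordinates: `∫_0^∞ 2 r/(1 + r²)² dr = 1`.
-/
lemma mass_one : Integrable (fun w : Pl => 1 / (π * (w.1 ^ 2 + w.2 ^ 2 + 1) ^ 2)) ∧
    ∫ w : Pl, 1 / (π * (w.1 ^ 2 + w.2 ^ 2 + 1) ^ 2) = 1 := by
  have h : ∫ w : Pl, 1 / (π * (w.1 ^ 2 + w.2 ^ 2 + 1) ^ 2) = 1 := by
    rw [← integral_comp_polarCoord_symm]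
    have h1 : (∫ p in polarCoord.target, p.1 •
        (fun w : Pl => 1 / (π * (w.1 ^ 2 + w.2 ^ 2 + 1) ^ 2)) (polarCoord.symm p)) =
        ∫ p in Ioi (0 : ℝ) ×ˢ Ioo (-π) π, (p.1 / (π * (p.1 ^ 2 + 1) ^ 2)) * (fun _ : ℝ => (1 : ℝ)) p.2 := by
      rw [polarCoord_target]
      refine integral_congr_ae (Eventually.of_forall fun p => ?_)
      have e : (p.1 * Real.cos p.2) ^ 2 + (p.1 * Real.sin p.2) ^ 2 = p.1 ^ 2 := by
        have := Real.sin_sq_add_cos_sq p.2
        nlinarith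
      simp only [polarCoord_symm_apply, smul_eq_mul, e]
      ring
    refine h1.trans ?_
    rw [Measure.volume_eq_prod,
      setIntegral_prod_mul (fun r : ℝ => r / (π * (r ^ 2 + 1) ^ 2)) (fun _ : ℝ => (1 : ℝ)),
      mass_radial]
    have := Real.pi_pos
    simp only [one_div, mul_inv_rev, integral_const, MeasurableSet.univ, measureReal_restrict_apply,
      univ_inter, Real.volume_real_Ioo, sub_neg_eq_add, smul_eq_mul, mul_one]
    rw [max_eq_left (by positivity)]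
    field_simp
    norm_num
  refine ⟨?_, h⟩
  by_contra hn
  rw [integral_undef hn] at h
  exact zero_ne_one h

/-
`z = s w` and dominated convergence.
-/
lemma approx_id {u : Pl → ℝ} (hu : Continuous u) (hc : HasCompactSupport u) :
    Tendsto (fun s : ℝ => ∫ z : Pl, s ^ 2 / (π * (z.1 ^ 2 + z.2 ^ 2 + s ^ 2) ^ 2) * u z)
      (𝓝[>] 0) (𝓝 (u 0)) := by
  obtain ⟨hi, h1⟩ := mass_one
  obtain ⟨C, hC⟩ := hc.exists_bound_of_continuous hu
  have key : Tendsto (fun s : ℝ => ∫ w : Pl, 1 / (π * (w.1 ^ 2 + w.2 ^ 2 + 1) ^ 2) * u (s • w))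
      (𝓝[>] 0) (𝓝 (∫ w : Pl, 1 / (π * (w.1 ^ 2 + w.2 ^ 2 + 1) ^ 2) * u 0)) := by
    refine tendsto_integral_filter_of_dominated_convergence
      (fun w : Pl => 1 / (π * (w.1 ^ 2 + w.2 ^ 2 + 1) ^ 2) * C) ?_ ?_ (hi.mul_const C) ?_
    · refine Eventually.of_forall fun s => ?_
      exact hi.aestronglyMeasurable.mul
        ((hu.comp (continuous_const_smul s)).aestronglyMeasurable)
    · refine Eventually.of_forall fun s => Eventually.of_forall fun w => ?_
      rw [norm_mul, Real.norm_of_nonneg (by positivity)]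
      exact mul_le_mul_of_nonneg_left (hC _) (by positivity)
    · refine Eventually.of_forall fun w => ?_
      refine Tendsto.const_mul _ ?_
      have h2 : Continuous (fun s : ℝ => u (s • w)) := hu.comp (continuous_id.smul continuous_const)
      have h3 := h2.tendsto 0
      rw [zero_smul] at h3
      exact h3.mono_left nhdsWithin_le_nhds
  rw [integral_mul_const, h1, one_mul] at key
  refine key.congr' ?_
  filter_upwards [self_mem_nhdsWithin] with s hs
  have hs' : (0 : ℝ) < s := hs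
  have h2 := Measure.integral_comp_smul (volume : Measure Pl)
    (fun z : Pl => s ^ 2 / (π * (z.1 ^ 2 + z.2 ^ 2 + s ^ 2) ^ 2) * u z) s
  have h3 : Module.finrank ℝ Pl = 2 := by simp [Pl]
  rw [h3] at h2
  have h4 : (∫ z : Pl, s ^ 2 / (π * (z.1 ^ 2 + z.2 ^ 2 + s ^ 2) ^ 2) * u z) =
      s ^ 2 * ∫ x : Pl, (fun z : Pl => s ^ 2 / (π * (z.1 ^ 2 + z.2 ^ 2 + s ^ 2) ^ 2) * u z) (s • x) := by
    rw [h2, abs_of_pos (by positivity), smul_eq_mul, ← mul_assoc,
      mul_inv_cancel₀ (by positivity), one_mul]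
  rw [h4, ← integral_const_mul]
  refine integral_congr_ae (Eventually.of_forall fun w => ?_)
  simp only [Prod.smul_fst, Prod.smul_snd, smul_eq_mul]
  have e : (s * w.1) ^ 2 + (s * w.2) ^ 2 + s ^ 2 = s ^ 2 * (w.1 ^ 2 + w.2 ^ 2 + 1) := by ring
  rw [e]
  have h5 : w.1 ^ 2 + w.2 ^ 2 + 1 ≠ 0 := by positivity
  have h6 := Real.pi_ne_zero
  field_simp

end EN
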