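import Pool.Agent.Helper97.EN.Phis
import Pool.Agent.Helper97.EN.KerA

/-!
Convergence of the regularised kernel.
-/

open MeasureTheory Real Set Filter Topology

namespace EN

private lemma log_bd {q s : ℝ} (hq : 0 < q) (hs : 0 < s) (hs1 : s ≤ 1) :
    |log (q + s ^ 2)| ≤ |log q| + q := by
  have hs2 : s ^ 2 ≤ 1 := by nlinarith
  have hs3 : 0 < s ^ 2 := by positivity
  rcases le_or_gt 1 (q + s ^ 2) with h | h
  · have h0 : 0 ≤ log (q + s ^ 2) := log_nonneg h
    rw [abs_of_nonneg h0]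
    have h1 : log (q + s ^ 2) ≤ q + s ^ 2 - 1 := log_le_sub_one_of_pos (by linarith)
    have h2 : 0 ≤ |log q| := abs_nonneg _
    linarith
  · have h0 : log (q + s ^ 2) ≤ 0 := log_nonpos (by linarith) h.le
    have h1 : log q ≤ log (q + s ^ 2) := log_le_log hq (by linarith)
    rw [abs_of_nonpos h0, abs_of_nonpos (by linarith)]
    linarith

private lemma qpos {z : Pl} (hz : z ≠ 0) : 0 < z.1 ^ 2 + z.2 ^ 2 := by
  have h : z.1 ≠ 0 ∨ z.2 ≠ 0 := by
    by_contra hcon
    push Not at hcon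
    exact hz (Prod.ext hcon.1 hcon.2)
  rcases h with h | h
  · have := sq_nonneg z.2
    have h2 : 0 < z.1 ^ 2 := by positivity
    linarith
  · have := sq_nonneg z.1
    have h2 : 0 < z.2 ^ 2 := by positivity
    linarith

private lemma Phi_eq {z : Pl} :
    Phi z = -(1 / (4 * π)) * log (z.1 ^ 2 + z.2 ^ 2) := by
  have h0 : 0 ≤ z.1 ^ 2 + z.2 ^ 2 := by positivity
  unfold Phi
  rw [log_sqrt h0]
  have hp : π ≠ 0 := pi_ne_zero
  field_simp
  ring

/-
`Phis s → Phi` (`z ≠ 0`), dominated on `bx R` by `|Phi| + const` for `0 < s ≤ 1`.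
-/
lemma Phis_lim {v : Pl → ℝ} (hv : Continuous v) (hc : HasCompactSupport v) :
    Tendsto (fun s : ℝ => ∫ z : Pl, Phis s z * v z) (𝓝[>] 0) (𝓝 (∫ z : Pl, Phi z * v z)) := by
  have hne : ∀ᵐ z : Pl, z ≠ 0 := by
    rw [ae_iff]
    simp only [ne_eq, not_not]
    have : {a : Pl | a = 0} = {(0 : Pl)} := by
      ext a
      simp
    rw [this]
    exact measure_singleton _
  have hpi : 0 < 1 / (4 * π) := by positivity
  have hI1 : Integrable (fun z : Pl => v z * Phi z) := by
    have h := ker_int1 hv hc 0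
    refine h.congr (Filter.Eventually.of_forall fun y => ?_)
    simp only [zero_sub, Phi_neg]
  have hI2 : Integrable (fun z : Pl => 1 / (4 * π) * ((z.1 ^ 2 + z.2 ^ 2) * v z)) := by
    refine Integrable.const_mul ?_ _
    refine Continuous.integrable_of_hasCompactSupport (by fun_prop) ?_
    exact hc.mul_left
  refine tendsto_integral_filter_of_dominated_convergence
    (fun z : Pl => ‖v z * Phi z‖ + ‖1 / (4 * π) * ((z.1 ^ 2 + z.2 ^ 2) * v z)‖) ?_ ?_
    (hI1.norm.add hI2.norm) ?_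
  · refine Filter.Eventually.of_forall fun s => ?_
    have hm : Measurable (fun z : Pl => Phis s z * v z) := by
      unfold Phis
      have := hv.measurable
      fun_prop
    exact hm.aestronglyMeasurable
  · have hev : ∀ᶠ s : ℝ in 𝓝[>] 0, 0 < s ∧ s ≤ 1 := by
      have h1 : ∀ᶠ s : ℝ in 𝓝[>] 0, 0 < s := eventually_mem_nhdsWithin
      have h2 : ∀ᶠ s : ℝ in 𝓝[>] (0 : ℝ), s ≤ 1 :=
        Filter.Eventually.filter_mono nhdsWithin_le_nhds
          (Filter.Eventually.mono (Iio_mem_nhds (by norm_num : (0 : ℝ) < 1)) fun _ h => le_of_lt h)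
      exact h1.and h2
    filter_upwards [hev] with s hs
    filter_upwards [hne] with z hz
    have hq := qpos hz
    have hb := log_bd hq hs.1 hs.2
    rw [Phi_eq]
    simp only [Phis, norm_mul, Real.norm_eq_abs, abs_neg]
    rw [abs_of_pos hpi, abs_of_pos hq]
    have hv0 : 0 ≤ |v z| := abs_nonneg _
    have h1 : 1 / (4 * π) * |log (z.1 ^ 2 + z.2 ^ 2 + s ^ 2)| * |v z|
        ≤ 1 / (4 * π) * (|log (z.1 ^ 2 + z.2 ^ 2)| + (z.1 ^ 2 + z.2 ^ 2)) * |v z| :=
      mul_le_mul_of_nonneg_right (mul_le_mul_of_nonneg_left hb hpi.le) hv0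
    refine h1.trans (le_of_eq ?_)
    ring
  · filter_upwards [hne] with z hz
    have hq := qpos hz
    refine Tendsto.mul_const _ ?_
    rw [Phi_eq]
    unfold Phis
    refine Tendsto.const_mul _ ?_
    have hcont : ContinuousAt (fun s : ℝ => log (z.1 ^ 2 + z.2 ^ 2 + s ^ 2)) 0 := by
      refine ContinuousAt.log (by fun_prop) ?_
      simp only [ne_eq, OfNat.ofNat_ne_zero, not_false_eq_true, zero_pow, add_zero]
      exact hq.ne'
    have := hcont.tendsto
    simp only [ne_eq, OfNat.ofNat_ne_zero, not_false_eq_true, zero_pow, add_zero] at this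
    exact this.mono_left nhdsWithin_le_nhds

end EN
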