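import Pool.Agent.Helper97.EN.Calc
import Pool.Agent.Helper97.EN.Mass
import Pool.Agent.Helper97.EN.PhisLim

/-!
The logarithmic kernel is the fundamental solution of `-Δ`; Green formula for the energy form.
-/

open MeasureTheory Real Set Filter Topology

namespace EN

theorem fund0 {u : Pl → ℝ} (hu : ContDiff ℝ (⊤ : ℕ∞) u) (hc : HasCompactSupport u) :
    ∫ z, Phi z * lap u z = -u 0 := by
  refine tendsto_nhds_unique (Phis_lim (lap_smooth hu).continuous (lap_supp hc)) ?_
  refine Tendsto.congr' ?_ (approx_id hu.continuous hc).neg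
  filter_upwards [self_mem_nhdsWithin] with s hs
  rw [parts_lap (Phis_smooth hs) hu hc, ← integral_neg]
  refine integral_congr_ae (Eventually.of_forall fun z => ?_)
  simp only
  rw [lap_Phis hs]
  ring

private lemma dx_refl {f : Pl → ℝ} (hf : Differentiable ℝ f) (x z : Pl) :
    dx (fun z => f (x - z)) z = -dx f (x - z) := by
  have h : fderiv ℝ (fun z => f (x - z)) z = _ :=
    ((hf (x - z)).hasFDerivAt.comp z ((hasFDerivAt_id z).const_sub x)).fderiv
  unfold dx
  rw [h]
  simp

private lemma dy_refl {f : Pl → ℝ} (hf : Differentiable ℝ f) (x z : Pl) :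
    dy (fun z => f (x - z)) z = -dy f (x - z) := by
  have h : fderiv ℝ (fun z => f (x - z)) z = _ :=
    ((hf (x - z)).hasFDerivAt.comp z ((hasFDerivAt_id z).const_sub x)).fderiv
  unfold dy
  rw [h]
  simp

private lemma dx_negf {f : Pl → ℝ} (z : Pl) : dx (fun z => -f z) z = -dx f z := by
  unfold dx
  rw [fderiv_fun_neg]
  simp

private lemma dy_negf {f : Pl → ℝ} (z : Pl) : dy (fun z => -f z) z = -dy f z := by
  unfold dy
  rw [fderiv_fun_neg]
  simp

private lemma lap_refl {u : Pl → ℝ} (hu : ContDiff ℝ (⊤ : ℕ∞) u) (x z : Pl) :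
    lap (fun z => u (x - z)) z = lap u (x - z) := by
  have hd : Differentiable ℝ u := hu.differentiable (by simp)
  have hdx : Differentiable ℝ (dx u) := (dx_smooth hu).differentiable (by simp)
  have hdy : Differentiable ℝ (dy u) := (dy_smooth hu).differentiable (by simp)
  unfold lap
  have h1 : dx (fun z => u (x - z)) = fun z => -dx u (x - z) := funext fun z => dx_refl hd x z
  have h2 : dy (fun z => u (x - z)) = fun z => -dy u (x - z) := funext fun z => dy_refl hd x z
  rw [h1, h2, dx_negf, dy_negf, dx_refl hdx, dy_refl hdy]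
  ring

/-
`fund0` for `z ↦ u (x - z)` (its Laplacian is `lap u (x - z)`), substitution `y = x - z`.
-/
theorem fund {u : Pl → ℝ} (hu : ContDiff ℝ (⊤ : ℕ∞) u) (hc : HasCompactSupport u) (x : Pl) :
    pot (lap u) x = -u x := by
  have hv : ContDiff ℝ (⊤ : ℕ∞) (fun z => u (x - z)) := hu.comp (contDiff_const.sub contDiff_id)
  have hvc : HasCompactSupport (fun z => u (x - z)) :=
    hc.comp_homeomorph (Homeomorph.subLeft x)
  have h := fund0 hv hvc
  simp only [sub_zero] at h
  rw [← h]
  unfold pot
  rw [← integral_sub_left_eq_self (fun y => lap u y * Phi (x - y)) volume x]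
  refine integral_congr_ae (Eventually.of_forall fun z => ?_)
  simp only
  rw [lap_refl hu, sub_sub_cancel]
  ring

/-- Green formula -/
theorem en_lap_left {u g : Pl → ℝ} (hu : ContDiff ℝ (⊤ : ℕ∞) u) (hc : HasCompactSupport u)
    (hg : Continuous g) (hgc : HasCompactSupport g) : en (lap u) g = -∫ z, u z * g z := by
  rw [en_symm (lap_smooth hu).continuous (lap_supp hc) hg hgc, en_eq, ← integral_neg]
  refine integral_congr_ae (Eventually.of_forall fun z => ?_)
  simp only
  rw [fund hu hc]
  ring

theorem en_lap_lap {u v : Pl → ℝ} (hu : ContDiff ℝ (⊤ : ℕ∞) u) (hc : HasCompactSupport u)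
    (hv : ContDiff ℝ (⊤ : ℕ∞) v) (hvc : HasCompactSupport v) :
    en (lap u) (lap v) = ∫ z, (dx u z * dx v z + dy u z * dy v z) := by
  rw [en_lap_left hu hc (lap_smooth hv).continuous (lap_supp hvc)]
  have hx := parts_x hu (dx_smooth hv) (dx_supp hvc)
  have hy := parts_y hu (dy_smooth hv) (dy_supp hvc)
  have i1 : Integrable (fun z => u z * dx (dx v) z) :=
    (hu.continuous.mul (dx_smooth (dx_smooth hv)).continuous).integrable_of_hasCompactSupport
      hc.mul_right
  have i2 : Integrable (fun z => u z * dy (dy v) z) :=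
    (hu.continuous.mul (dy_smooth (dy_smooth hv)).continuous).integrable_of_hasCompactSupport
      hc.mul_right
  have i3 : Integrable (fun z => dx u z * dx v z) :=
    ((dx_smooth hu).continuous.mul (dx_smooth hv).continuous).integrable_of_hasCompactSupport
      (dx_supp hc).mul_right
  have i4 : Integrable (fun z => dy u z * dy v z) :=
    ((dy_smooth hu).continuous.mul (dy_smooth hv).continuous).integrable_of_hasCompactSupport
      (dy_supp hc).mul_right
  have h1 : ∫ z, u z * lap v z = (∫ z, u z * dx (dx v) z) + ∫ z, u z * dy (dy v) z := by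
    rw [← integral_add i1 i2]
    refine integral_congr_ae (Eventually.of_forall fun z => ?_)
    simp only [lap]
    ring
  rw [h1, hx, hy, integral_add i3 i4]
  ring

end EN
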