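import Pool.Agent.Helper97.EN.KerB

/-!
Positivity of the energy form on neutral functions, Cauchy-Schwarz and Minkowski inequalities.
-/

open MeasureTheory Real Set Filter Topology

namespace EN

theorem en_self {f : Pl → ℝ} (hf : ContDiff ℝ 1 f) (hc : HasCompactSupport f)
    (h0 : ∫ z, f z = 0) : en f f = RP4.energyF f :=
  (RP4.energy_eq' f hf hc h0).symm

theorem en_nonneg {f : Pl → ℝ} (hf : ContDiff ℝ 1 f) (hc : HasCompactSupport f)
    (h0 : ∫ z, f z = 0) : 0 ≤ en f f := by
  rw [en_self hf hc h0]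
  unfold RP4.energyF
  refine mul_nonneg (by positivity) (integral_nonneg fun ξ => ?_)
  positivity

private lemma cs_smul {f : Pl → ℝ} (hc : HasCompactSupport f) (s : ℝ) :
    HasCompactSupport (fun z => s * f z) := hc.mul_left (f := fun _ => s)

lemma en_add_self {f g : Pl → ℝ} (hf : Continuous f) (hc : HasCompactSupport f)
    (hg : Continuous g) (hgc : HasCompactSupport g) (s t : ℝ) :
    en (fun z => s * f z + t * g z) (fun z => s * f z + t * g z) =
      s ^ 2 * en f f + 2 * (s * t) * en f g + t ^ 2 * en g g := by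
  have h1 : Continuous (fun z => s * f z) := continuous_const.mul hf
  have h2 : Continuous (fun z => t * g z) := continuous_const.mul hg
  have c1 := cs_smul hc s
  have c2 := cs_smul hgc t
  have h3 : Continuous (fun z => s * f z + t * g z) := h1.add h2
  have c3 : HasCompactSupport (fun z => s * f z + t * g z) := c1.add c2
  rw [en_add_left h1 c1 h2 c2 h3 c3, en_add_right h1 c1 h2 c2 h1 c1,
    en_add_right h1 c1 h2 c2 h2 c2]
  simp only [en_smul_left, en_smul_right]
  rw [en_symm hg hgc hf hc]
  ring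

private lemma nn {f g : Pl → ℝ} (hf : ContDiff ℝ 1 f) (hc : HasCompactSupport f)
    (h0 : ∫ z, f z = 0) (hg : ContDiff ℝ 1 g) (hgc : HasCompactSupport g) (g0 : ∫ z, g z = 0)
    (s t : ℝ) : 0 ≤ s ^ 2 * en f f + 2 * (s * t) * en f g + t ^ 2 * en g g := by
  rw [← en_add_self hf.continuous hc hg.continuous hgc]
  refine en_nonneg ((contDiff_const.mul hf).add (contDiff_const.mul hg))
    ((cs_smul hc s).add (cs_smul hgc t)) ?_
  have i1 : Integrable f := hf.continuous.integrable_of_hasCompactSupport hc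
  have i2 : Integrable g := hg.continuous.integrable_of_hasCompactSupport hgc
  rw [integral_add (i1.const_mul s) (i2.const_mul t), integral_const_mul, integral_const_mul,
    h0, g0]
  ring

private lemma add_one {f g : Pl → ℝ} (hf : ContDiff ℝ 1 f) (hc : HasCompactSupport f)
    (hg : ContDiff ℝ 1 g) (hgc : HasCompactSupport g) :
    en (fun z => f z + g z) (fun z => f z + g z) = en f f + 2 * en f g + en g g := by
  have h := en_add_self hf.continuous hc hg.continuous hgc 1 1
  simp only [one_mul] at h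
  rw [h]
  ring

private lemma two_le {f g : Pl → ℝ} (hf : ContDiff ℝ 1 f) (hc : HasCompactSupport f)
    (h0 : ∫ z, f z = 0) (hg : ContDiff ℝ 1 g) (hgc : HasCompactSupport g) (g0 : ∫ z, g z = 0) :
    2 * en f g ≤ en f f + en g g := by
  have h := nn hf hc h0 hg hgc g0 1 (-1)
  linarith

/-
The quadratic polynomial `t ↦ en (f + t g) (f + t g)` is nonnegative: `discrim_le_zero` or the direct choice of `t`.
-/
theorem en_cs {f g : Pl → ℝ} (hf : ContDiff ℝ 1 f) (hc : HasCompactSupport f)
    (h0 : ∫ z, f z = 0) (hg : ContDiff ℝ 1 g) (hgc : HasCompactSupport g) (g0 : ∫ z, g z = 0) :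
    en f g ^ 2 ≤ en f f * en g g := by
  have h : discrim (en g g) (2 * en f g) (en f f) ≤ 0 := by
    refine discrim_le_zero fun x => ?_
    have := nn hf hc h0 hg hgc g0 1 x
    linarith
  unfold discrim at h
  linarith

theorem en_tri {f g : Pl → ℝ} (hf : ContDiff ℝ 1 f) (hc : HasCompactSupport f)
    (h0 : ∫ z, f z = 0) (hg : ContDiff ℝ 1 g) (hgc : HasCompactSupport g) (g0 : ∫ z, g z = 0) :
    √(en (fun z => f z + g z) (fun z => f z + g z)) ≤ √(en f f) + √(en g g) := by
  rw [add_one hf hc hg hgc]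
  have ha := en_nonneg hf hc h0
  have hb := en_nonneg hg hgc g0
  have h1 : |en f g| ≤ √(en f f * en g g) := Real.abs_le_sqrt (en_cs hf hc h0 hg hgc g0)
  rw [Real.sqrt_mul ha] at h1
  have h2 := le_abs_self (en f g)
  refine Real.sqrt_le_iff.2 ⟨by positivity, ?_⟩
  have h3 := Real.sq_sqrt ha
  have h4 := Real.sq_sqrt hb
  nlinarith

/-- three terms -/
theorem en_three {f g h : Pl → ℝ} (hf : ContDiff ℝ 1 f) (hc : HasCompactSupport f)
    (h0 : ∫ z, f z = 0) (hg : ContDiff ℝ 1 g) (hgc : HasCompactSupport g) (g0 : ∫ z, g z = 0)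
    (hh : ContDiff ℝ 1 h) (hhc : HasCompactSupport h) (hh0 : ∫ z, h z = 0) :
    en (fun z => f z + g z + h z) (fun z => f z + g z + h z) ≤ 3 * (en f f + en g g + en h h) := by
  have hfg : ContDiff ℝ 1 (fun z => f z + g z) := hf.add hg
  have cfg : HasCompactSupport (fun z => f z + g z) := hc.add hgc
  rw [add_one hfg cfg hh hhc, add_one hf hc hg hgc,
    en_add_left hf.continuous hc hg.continuous hgc hh.continuous hhc]
  have h1 := two_le hf hc h0 hg hgc g0
  have h2 := two_le hf hc h0 hh hhc hh0
  have h3 := two_le hg hgc g0 hh hhc hh0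
  linarith

end EN
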