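import Pool.Agent.Helper97.EN.Defs

/-!
Calculus of `dx`, `dy`, `lap`.
-/

open MeasureTheory Real Set Filter Topology

namespace EN

/-! calculus of `dx`, `dy`, `lap` -/

private lemma calc_dir_smooth {u : Pl → ℝ} (hu : ContDiff ℝ (⊤ : ℕ∞) u) (v : Pl) :
    ContDiff ℝ (⊤ : ℕ∞) (fun z => fderiv ℝ u z v) :=
  (hu.fderiv_right (m := (⊤ : ℕ∞)) le_rfl).clm_apply contDiff_const

private lemma calc_dir_supp {u : Pl → ℝ} (hc : HasCompactSupport u) (v : Pl) :
    HasCompactSupport (fun z => fderiv ℝ u z v) :=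
  hc.fderiv_apply ℝ v

private lemma calc_dir_parts {φ u : Pl → ℝ} (hφ : ContDiff ℝ (⊤ : ℕ∞) φ)
    (hu : ContDiff ℝ (⊤ : ℕ∞) u) (hc : HasCompactSupport u) (v : Pl) :
    ∫ z, φ z * fderiv ℝ u z v = -∫ z, fderiv ℝ φ z v * u z := by
  have c1 : Continuous fun z => fderiv ℝ φ z v := (calc_dir_smooth hφ v).continuous
  have c2 : Continuous fun z => fderiv ℝ u z v := (calc_dir_smooth hu v).continuous
  refine integral_mul_fderiv_eq_neg_fderiv_mul_of_integrable ?_ ?_ ?_ ?_ ?_
  · exact (c1.mul hu.continuous).integrable_of_hasCompactSupport hc.mul_left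
  · exact (hφ.continuous.mul c2).integrable_of_hasCompactSupport (calc_dir_supp hc v).mul_left
  · exact (hφ.continuous.mul hu.continuous).integrable_of_hasCompactSupport hc.mul_left
  · exact fun x _ => hφ.differentiable (by simp) x
  · exact fun x _ => hu.differentiable (by simp) x

lemma dx_smooth {u : Pl → ℝ} (hu : ContDiff ℝ (⊤ : ℕ∞) u) : ContDiff ℝ (⊤ : ℕ∞) (dx u) :=
  calc_dir_smooth hu (1, 0)

lemma dy_smooth {u : Pl → ℝ} (hu : ContDiff ℝ (⊤ : ℕ∞) u) : ContDiff ℝ (⊤ : ℕ∞) (dy u) :=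
  calc_dir_smooth hu (0, 1)

lemma lap_smooth {u : Pl → ℝ} (hu : ContDiff ℝ (⊤ : ℕ∞) u) : ContDiff ℝ (⊤ : ℕ∞) (lap u) :=
  (dx_smooth (dx_smooth hu)).add (dy_smooth (dy_smooth hu))

lemma dx_supp {u : Pl → ℝ} (hc : HasCompactSupport u) : HasCompactSupport (dx u) :=
  calc_dir_supp hc (1, 0)

lemma dy_supp {u : Pl → ℝ} (hc : HasCompactSupport u) : HasCompactSupport (dy u) :=
  calc_dir_supp hc (0, 1)

lemma lap_supp {u : Pl → ℝ} (hc : HasCompactSupport u) : HasCompactSupport (lap u) :=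
  (dx_supp (dx_supp hc)).add (dy_supp (dy_supp hc))

/-- integration by parts (`integral_mul_fderiv_eq_neg_fderiv_mul_of_integrable` or `integral_bilinear_hasLineDerivAt_right_eq_neg_left`) -/
lemma parts_x {φ u : Pl → ℝ} (hφ : ContDiff ℝ (⊤ : ℕ∞) φ) (hu : ContDiff ℝ (⊤ : ℕ∞) u)
    (hc : HasCompactSupport u) : ∫ z, φ z * dx u z = -∫ z, dx φ z * u z :=
  calc_dir_parts hφ hu hc (1, 0)

lemma parts_y {φ u : Pl → ℝ} (hφ : ContDiff ℝ (⊤ : ℕ∞) φ) (hu : ContDiff ℝ (⊤ : ℕ∞) u)
    (hc : HasCompactSupport u) : ∫ z, φ z * dy u z = -∫ z, dy φ z * u z :=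
  calc_dir_parts hφ hu hc (0, 1)

lemma parts_lap {φ u : Pl → ℝ} (hφ : ContDiff ℝ (⊤ : ℕ∞) φ) (hu : ContDiff ℝ (⊤ : ℕ∞) u)
    (hc : HasCompactSupport u) : ∫ z, φ z * lap u z = ∫ z, lap φ z * u z := by
  have i1 : Integrable fun z => φ z * dx (dx u) z :=
    (hφ.continuous.mul (dx_smooth (dx_smooth hu)).continuous).integrable_of_hasCompactSupport
      (dx_supp (dx_supp hc)).mul_left
  have i2 : Integrable fun z => φ z * dy (dy u) z :=
    (hφ.continuous.mul (dy_smooth (dy_smooth hu)).continuous).integrable_of_hasCompactSupport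
      (dy_supp (dy_supp hc)).mul_left
  have i3 : Integrable fun z => dx (dx φ) z * u z :=
    ((dx_smooth (dx_smooth hφ)).continuous.mul hu.continuous).integrable_of_hasCompactSupport
      hc.mul_left
  have i4 : Integrable fun z => dy (dy φ) z * u z :=
    ((dy_smooth (dy_smooth hφ)).continuous.mul hu.continuous).integrable_of_hasCompactSupport
      hc.mul_left
  have e1 : ∫ z, φ z * dx (dx u) z = ∫ z, dx (dx φ) z * u z := by
    rw [parts_x hφ (dx_smooth hu) (dx_supp hc), parts_x (dx_smooth hφ) hu hc, neg_neg]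
  have e2 : ∫ z, φ z * dy (dy u) z = ∫ z, dy (dy φ) z * u z := by
    rw [parts_y hφ (dy_smooth hu) (dy_supp hc), parts_y (dy_smooth hφ) hu hc, neg_neg]
  calc ∫ z, φ z * lap u z = ∫ z, (φ z * dx (dx u) z + φ z * dy (dy u) z) := by
        refine integral_congr_ae (Eventually.of_forall fun z => ?_)
        simp only [lap]
        ring
    _ = ∫ z, (dx (dx φ) z * u z + dy (dy φ) z * u z) := by
        rw [integral_add i1 i2, integral_add i3 i4, e1, e2]
    _ = ∫ z, lap φ z * u z := by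
        refine integral_congr_ae (Eventually.of_forall fun z => ?_)
        simp only [lap]
        ring

lemma int_dx {u : Pl → ℝ} (hu : ContDiff ℝ (⊤ : ℕ∞) u) (hc : HasCompactSupport u) :
    ∫ z, dx u z = 0 := by
  have h := parts_x (φ := fun _ => 1) contDiff_const hu hc
  simp only [one_mul] at h
  rw [h]
  simp [dx]

lemma int_dy {u : Pl → ℝ} (hu : ContDiff ℝ (⊤ : ℕ∞) u) (hc : HasCompactSupport u) :
    ∫ z, dy u z = 0 := by
  have h := parts_y (φ := fun _ => 1) contDiff_const hu hc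
  simp only [one_mul] at h
  rw [h]
  simp [dy]

lemma int_lap {u : Pl → ℝ} (hu : ContDiff ℝ (⊤ : ℕ∞) u) (hc : HasCompactSupport u) :
    ∫ z, lap u z = 0 := by
  have i1 : Integrable (dx (dx u)) :=
    (dx_smooth (dx_smooth hu)).continuous.integrable_of_hasCompactSupport (dx_supp (dx_supp hc))
  have i2 : Integrable (dy (dy u)) :=
    (dy_smooth (dy_smooth hu)).continuous.integrable_of_hasCompactSupport (dy_supp (dy_supp hc))
  change ∫ z, (dx (dx u) z + dy (dy u) z) = 0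
  rw [integral_add i1 i2, int_dx (dx_smooth hu) (dx_supp hc), int_dy (dy_smooth hu) (dy_supp hc),
    add_zero]

end EN
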