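import Mathlib

/-!
# Block E of project GF (MP_973bc8_pr): the energy form of the plane.  Definitions.

The definitions are literally those of `GF.dx`, `GF.dy`, `GF.lap`, `GF.en` (and of `GF.energy2`), so the theorems can be used there by
unfolding.  Test functions are given by the two hypotheses `ContDiff ℝ (⊤ : ℕ∞) f` and `HasCompactSupport f`.
-/

open MeasureTheory Real Set

namespace EN

/-- the plane -/
abbrev Pl := ℝ × ℝ

/-- first derivatives -/
noncomputable def dx (f : Pl → ℝ) (z : Pl) : ℝ := fderiv ℝ f z (1, 0)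

noncomputable def dy (f : Pl → ℝ) (z : Pl) : ℝ := fderiv ℝ f z (0, 1)

/-- Laplacian -/
noncomputable def lap (f : Pl → ℝ) (z : Pl) : ℝ := dx (dx f) z + dy (dy f) z

/-- fundamental solution of `-Δ` -/
noncomputable def Phi (z : Pl) : ℝ := -(1 / (2 * π)) * log (Real.sqrt (z.1 ^ 2 + z.2 ^ 2))

/-- the energy form -/
noncomputable def en (f g : Pl → ℝ) : ℝ :=
  ∫ x : Pl, ∫ y : Pl,
    f x * g y * (-(1 / (2 * π)) * log (Real.sqrt ((x.1 - y.1) ^ 2 + (x.2 - y.2) ^ 2)))

/-- logarithmic potential -/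
noncomputable def pot (f : Pl → ℝ) (x : Pl) : ℝ := ∫ y : Pl, f y * Phi (x - y)

/-- square centred at the origin -/
def bx (R : ℝ) : Set Pl := Icc (-R) R ×ˢ Icc (-R) R

end EN
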