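import Pool.Agent.Helper97.EN.Defs
import Pool.Agent.Helper97.RP4.H3

/-!
Bessel inequality for the Fourier transform of the plane.
-/

open MeasureTheory Real Set Filter Topology

namespace EN

lemma heatP_nonneg (t : ℝ) (ht : 0 < t) (z : Pl) : 0 ≤ RP4.heat t z := by
  unfold RP4.heat; positivity

lemma pl_heat_cont (t : ℝ) : Continuous (RP4.heat t) := by unfold RP4.heat; fun_prop

lemma pl_heat_even (t : ℝ) (x y : Pl) : RP4.heat t (x - y) = RP4.heat t (y - x) := by
  unfold RP4.heat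
  simp only [Prod.fst_sub, Prod.snd_sub]
  congr 3
  ring

lemma pl_heat_eq_mul (t : ℝ) (ht : 0 < t) (z : Pl) :
    RP4.heat t z = 1 / (4 * π * t) *
      (exp (-(1 / (4 * t)) * z.1 ^ 2) * exp (-(1 / (4 * t)) * z.2 ^ 2)) := by
  unfold RP4.heat
  rw [← exp_add]
  congr 2
  field_simp
  ring

lemma pl_heat_int (t : ℝ) (ht : 0 < t) : Integrable (RP4.heat t) := by
  have hb : 0 < 1 / (4 * t) := by positivity
  have h := ((integrable_exp_neg_mul_sq hb).mul_prod (integrable_exp_neg_mul_sq hb)).const_mul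
    (1 / (4 * π * t))
  rw [← Measure.volume_eq_prod] at h
  exact h.congr (Eventually.of_forall fun z => (pl_heat_eq_mul t ht z).symm)

lemma pl_heat_one (t : ℝ) (ht : 0 < t) : ∫ z : Pl, RP4.heat t z = 1 := by
  have h1 : ∫ z : Pl, RP4.heat t z = 1 / (4 * π * t) *
      ∫ z : Pl, (exp (-(1 / (4 * t)) * z.1 ^ 2) * exp (-(1 / (4 * t)) * z.2 ^ 2)) := by
    rw [← integral_const_mul]
    exact integral_congr_ae (Eventually.of_forall fun z => pl_heat_eq_mul t ht z)
  have h2 := integral_prod_mul (μ := (volume : Measure ℝ)) (ν := (volume : Measure ℝ))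
    (fun x : ℝ => exp (-(1 / (4 * t)) * x ^ 2)) (fun x : ℝ => exp (-(1 / (4 * t)) * x ^ 2))
  rw [← Measure.volume_eq_prod] at h2
  rw [h1, h2, integral_gaussian]
  have h3 : 0 ≤ π / (1 / (4 * t)) := by positivity
  rw [mul_self_sqrt h3]
  field_simp

lemma heat_schur {a : Pl → ℝ} (ha : Continuous a) (hc : HasCompactSupport a) (t : ℝ) (ht : 0 < t) :
    ∫ x : Pl, ∫ y : Pl, a x * a y * RP4.heat t (x - y) ≤ ∫ x, a x ^ 2 := by
  have hasq : Integrable (fun x => a x ^ 2) := by
    have : Continuous (fun x => a x ^ 2) := by fun_prop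
    refine this.integrable_of_hasCompactSupport ?_
    have : (fun x => a x ^ 2) = fun x => a x * a x := by ext x; ring
    rw [this]
    exact hc.mul_left
  have hF2 : Integrable (fun p : Pl × Pl => a p.2 ^ 2 * RP4.heat t (p.1 - p.2))
      ((volume : Measure Pl).prod (volume : Measure Pl)) := by
    have := Integrable.convolution_integrand (ContinuousLinearMap.mul ℝ ℝ) hasq (pl_heat_int t ht)
    simpa using this
  have hF1 : Integrable (fun p : Pl × Pl => a p.1 ^ 2 * RP4.heat t (p.1 - p.2))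
      ((volume : Measure Pl).prod (volume : Measure Pl)) := by
    have := hF2.swap
    refine this.congr (Eventually.of_forall fun p => ?_)
    simp only [Function.comp, Prod.fst_swap, Prod.snd_swap]
    rw [pl_heat_even]
  have hG : Integrable (fun p : Pl × Pl => a p.1 * a p.2 * RP4.heat t (p.1 - p.2))
      ((volume : Measure Pl).prod (volume : Measure Pl)) := by
    refine (hF1.add hF2).mono ?_ (Eventually.of_forall fun p => ?_)
    · have : Continuous (fun p : Pl × Pl => a p.1 * a p.2 * RP4.heat t (p.1 - p.2)) := by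
        have := pl_heat_cont t
        fun_prop
      exact this.aestronglyMeasurable
    · have hn := heatP_nonneg t ht (p.1 - p.2)
      simp only [Pi.add_apply, Real.norm_eq_abs]
      rw [abs_mul (a p.1 * a p.2), abs_of_nonneg hn, ← add_mul,
        abs_mul (a p.1 ^ 2 + a p.2 ^ 2), abs_of_nonneg hn]
      refine mul_le_mul_of_nonneg_right ?_ hn
      rw [abs_of_nonneg (by positivity : 0 ≤ a p.1 ^ 2 + a p.2 ^ 2)]
      rw [abs_le]
      constructor <;> nlinarith [sq_nonneg (a p.1 + a p.2), sq_nonneg (a p.1 - a p.2), sq_nonneg (a p.1), sq_nonneg (a p.2)]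
  have e1 : ∫ x : Pl, ∫ y : Pl, a x * a y * RP4.heat t (x - y) =
      ∫ p : Pl × Pl, a p.1 * a p.2 * RP4.heat t (p.1 - p.2) ∂(volume.prod volume) :=
    (integral_prod _ hG).symm
  have e2 : ∫ p : Pl × Pl, a p.1 ^ 2 * RP4.heat t (p.1 - p.2) ∂(volume.prod volume) =
      ∫ x, a x ^ 2 := by
    rw [integral_prod _ hF1]
    refine integral_congr_ae (Eventually.of_forall fun x => ?_)
    simp only []
    rw [integral_const_mul, integral_sub_left_eq_self (RP4.heat t) volume x, pl_heat_one t ht, mul_one]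
  have e3 : ∫ p : Pl × Pl, a p.2 ^ 2 * RP4.heat t (p.1 - p.2) ∂(volume.prod volume) =
      ∫ x, a x ^ 2 := by
    rw [← e2, ← integral_prod_swap]
    refine integral_congr_ae (Eventually.of_forall fun p => ?_)
    simp only [Prod.fst_swap, Prod.snd_swap]
    rw [pl_heat_even]
  rw [e1]
  calc _ ≤ ∫ p : Pl × Pl, (1 / 2) * (a p.1 ^ 2 * RP4.heat t (p.1 - p.2) +
        a p.2 ^ 2 * RP4.heat t (p.1 - p.2)) ∂(volume.prod volume) := by
        refine integral_mono hG ((hF1.add hF2).const_mul _) fun p => ?_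
        have hn := heatP_nonneg t ht (p.1 - p.2)
        simp only []
        nlinarith [mul_nonneg (sq_nonneg (a p.1 - a p.2)) hn]
    _ = ∫ x, a x ^ 2 := by
        rw [integral_const_mul, integral_add hF1 hF2, e2, e3]
        ring


lemma pl_ftc_abs {a : Pl → ℝ} (ha : Integrable a) (ξ : Pl) : |RP4.ftc a ξ| ≤ ∫ y, |a y| := by
  unfold RP4.ftc
  refine (abs_integral_le_integral_abs).trans ?_
  refine integral_mono_of_nonneg (Eventually.of_forall fun y => abs_nonneg _) ha.abs
    (Eventually.of_forall fun y => ?_)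
  simp only []
  rw [abs_mul]
  exact mul_le_of_le_one_right (abs_nonneg _) (abs_cos_le_one _)

lemma pl_fts_abs {a : Pl → ℝ} (ha : Integrable a) (ξ : Pl) : |RP4.fts a ξ| ≤ ∫ y, |a y| := by
  unfold RP4.fts
  refine (abs_integral_le_integral_abs).trans ?_
  refine integral_mono_of_nonneg (Eventually.of_forall fun y => abs_nonneg _) ha.abs
    (Eventually.of_forall fun y => ?_)
  simp only []
  rw [abs_mul]
  exact mul_le_of_le_one_right (abs_nonneg _) (abs_sin_le_one _)

lemma pl_ftc_cont {a : Pl → ℝ} (ha : Integrable a) : Continuous (RP4.ftc a) := by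
  unfold RP4.ftc
  refine continuous_of_dominated (bound := fun y => |a y|) (fun ξ => ?_) (fun ξ => ?_) ha.abs ?_
  · have : Continuous fun y : Pl => cos (ξ.1 * y.1 + ξ.2 * y.2) := by fun_prop
    exact ha.aestronglyMeasurable.mul this.aestronglyMeasurable
  · refine Eventually.of_forall fun y => ?_
    rw [Real.norm_eq_abs, abs_mul]
    exact mul_le_of_le_one_right (abs_nonneg _) (abs_cos_le_one _)
  · exact Eventually.of_forall fun y => by fun_prop

lemma pl_fts_cont {a : Pl → ℝ} (ha : Integrable a) : Continuous (RP4.fts a) := by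
  unfold RP4.fts
  refine continuous_of_dominated (bound := fun y => |a y|) (fun ξ => ?_) (fun ξ => ?_) ha.abs ?_
  · have : Continuous fun y : Pl => sin (ξ.1 * y.1 + ξ.2 * y.2) := by fun_prop
    exact ha.aestronglyMeasurable.mul this.aestronglyMeasurable
  · refine Eventually.of_forall fun y => ?_
    rw [Real.norm_eq_abs, abs_mul]
    exact mul_le_of_le_one_right (abs_nonneg _) (abs_sin_le_one _)
  · exact Eventually.of_forall fun y => by fun_prop

theorem planch {a : Pl → ℝ} (ha : Continuous a) (hc : HasCompactSupport a) :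
    Integrable (fun ξ : Pl => RP4.ftc a ξ ^ 2 + RP4.fts a ξ ^ 2) ∧
      (1 / (2 * π) ^ 2) * ∫ ξ : Pl, (RP4.ftc a ξ ^ 2 + RP4.fts a ξ ^ 2) ≤ ∫ x, a x ^ 2 := by
  have hai : Integrable a := ha.integrable_of_hasCompactSupport hc
  set g : Pl → ℝ := fun ξ => RP4.ftc a ξ ^ 2 + RP4.fts a ξ ^ 2 with hg
  have hg0 : ∀ ξ, 0 ≤ g ξ := fun ξ => by simp only [hg]; positivity
  have hgc : Continuous g := by
    have h1 := pl_ftc_cont hai
    have h2 := pl_fts_cont hai
    simp only [hg]
    fun_prop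
  set C : ℝ := (2 * π) ^ 2 * ∫ x, a x ^ 2 with hC
  have hC0 : 0 ≤ C := by
    have : 0 ≤ ∫ x, a x ^ 2 := integral_nonneg fun x => sq_nonneg _
    positivity
  have hgb : ∀ ξ, g ξ ≤ 2 * (∫ y, |a y|) ^ 2 := by
    intro ξ
    have h1 := pl_ftc_abs hai ξ
    have h2 := pl_fts_abs hai ξ
    have h3 : RP4.ftc a ξ ^ 2 ≤ (∫ y, |a y|) ^ 2 := by
      rw [← sq_abs]; exact pow_le_pow_left₀ (abs_nonneg _) h1 2
    have h4 : RP4.fts a ξ ^ 2 ≤ (∫ y, |a y|) ^ 2 := by
      rw [← sq_abs]; exact pow_le_pow_left₀ (abs_nonneg _) h2 2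
    simp only [hg]
    linarith
  have hti : ∀ t : ℝ, 0 < t → Integrable (fun ξ : Pl => g ξ * exp (-(t * (ξ.1 ^ 2 + ξ.2 ^ 2)))) := by
    intro t ht
    refine ((RP4.H3a_exp t ht).const_mul (2 * (∫ y, |a y|) ^ 2)).mono ?_
      (Eventually.of_forall fun ξ => ?_)
    · have : Continuous fun ξ : Pl => g ξ * exp (-(t * (ξ.1 ^ 2 + ξ.2 ^ 2))) := by fun_prop
      exact this.aestronglyMeasurable
    · rw [Real.norm_eq_abs, Real.norm_eq_abs, abs_of_nonneg (mul_nonneg (hg0 ξ) (exp_pos _).le),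
        abs_of_nonneg (by positivity)]
      exact mul_le_mul_of_nonneg_right (hgb ξ) (exp_pos _).le
  have htb : ∀ t : ℝ, 0 < t → ∫ ξ : Pl, g ξ * exp (-(t * (ξ.1 ^ 2 + ξ.2 ^ 2))) ≤ C := by
    intro t ht
    have h1 := RP4.heat_fourier ha hc t ht
    have h2 := heat_schur ha hc t ht
    rw [← h1] at h2
    have h3 : 0 < (2 * π) ^ 2 := by positivity
    have h4 : (1 / (2 * π) ^ 2) * ∫ ξ : Pl, g ξ * exp (-(t * (ξ.1 ^ 2 + ξ.2 ^ 2))) ≤
      ∫ x, a x ^ 2 := h2
    rw [one_div, inv_mul_le_iff₀ h3] at h4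
    exact h4
  have hl : ∫⁻ ξ : Pl, ENNReal.ofReal (g ξ) ≤ ENNReal.ofReal C := by
    set F : ℕ → Pl → ENNReal := fun n ξ =>
      ENNReal.ofReal (g ξ * exp (-(1 / ((n : ℝ) + 1) * (ξ.1 ^ 2 + ξ.2 ^ 2)))) with hF
    have h1 : ∀ ξ, Tendsto (fun n => F n ξ) atTop (𝓝 (ENNReal.ofReal (g ξ))) := by
      intro ξ
      refine ENNReal.tendsto_ofReal ?_
      have h2 : Tendsto (fun n : ℕ => -(1 / ((n : ℝ) + 1) * (ξ.1 ^ 2 + ξ.2 ^ 2))) atTop (𝓝 0) := by
        have := (tendsto_one_div_add_atTop_nhds_zero_nat (𝕜 := ℝ)).mul_const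
          (ξ.1 ^ 2 + ξ.2 ^ 2) |>.neg
        simpa using this
      have h3 := ((Real.continuous_exp.tendsto 0).comp h2).const_mul (g ξ)
      simpa using h3
    have h2 : ∫⁻ ξ : Pl, ENNReal.ofReal (g ξ) = ∫⁻ ξ : Pl, liminf (fun n => F n ξ) atTop := by
      refine lintegral_congr fun ξ => ?_
      exact (h1 ξ).liminf_eq.symm
    rw [h2]
    refine (lintegral_liminf_le fun n => ?_).trans ?_
    · have : Continuous fun ξ : Pl => g ξ * exp (-(1 / ((n : ℝ) + 1) * (ξ.1 ^ 2 + ξ.2 ^ 2))) := by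
        fun_prop
      exact this.measurable.ennreal_ofReal
    · refine liminf_le_of_frequently_le' (Eventually.of_forall fun n => ?_).frequently
      have hn : (0 : ℝ) < 1 / ((n : ℝ) + 1) := by positivity
      simp only [hF]
      rw [← ofReal_integral_eq_lintegral_ofReal (hti _ hn)
        (Eventually.of_forall fun ξ => mul_nonneg (hg0 ξ) (exp_pos _).le)]
      exact ENNReal.ofReal_le_ofReal (htb _ hn)
  have hint : Integrable g := by
    refine ⟨hgc.aestronglyMeasurable, ?_⟩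
    rw [hasFiniteIntegral_iff_ofReal (Eventually.of_forall hg0)]
    exact hl.trans_lt ENNReal.ofReal_lt_top
  refine ⟨hint, ?_⟩
  have h5 : ∫ ξ, g ξ ≤ C := by
    rw [integral_eq_lintegral_of_nonneg_ae (Eventually.of_forall hg0) hgc.aestronglyMeasurable]
    exact ENNReal.toReal_le_of_le_ofReal hC0 hl
  have h3 : 0 < (2 * π) ^ 2 := by positivity
  have h6 : (1 / (2 * π) ^ 2) * ∫ ξ : Pl, g ξ ≤ ∫ x, a x ^ 2 := by
    rw [one_div, inv_mul_le_iff₀ h3]
    exact h5
  exact h6

end EN
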