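import Pool.Agent.Helper97.EN.Pos
import Pool.Agent.Helper97.EN.Planch
import Pool.Agent.Helper97.EN.Calc

/-!
The energy of a derivative is bounded by the `L²` norm.
-/

open MeasureTheory Real Set Filter Topology

namespace EN

lemma dxe_fd (ξ z : Pl) : HasFDerivAt (fun y : Pl => ξ.1 * y.1 + ξ.2 * y.2)
    (ξ.1 • ContinuousLinearMap.fst ℝ ℝ ℝ + ξ.2 • ContinuousLinearMap.snd ℝ ℝ ℝ) z :=
  (hasFDerivAt_fst.const_mul ξ.1).add (hasFDerivAt_snd.const_mul ξ.2)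

lemma dxe_cos_smooth (ξ : Pl) :
    ContDiff ℝ (⊤ : ℕ∞) (fun y : Pl => cos (ξ.1 * y.1 + ξ.2 * y.2)) := by
  fun_prop

lemma dxe_sin_smooth (ξ : Pl) :
    ContDiff ℝ (⊤ : ℕ∞) (fun y : Pl => sin (ξ.1 * y.1 + ξ.2 * y.2)) := by
  fun_prop

lemma dxe_dx_cos (ξ z : Pl) :
    dx (fun y : Pl => cos (ξ.1 * y.1 + ξ.2 * y.2)) z = -(ξ.1 * sin (ξ.1 * z.1 + ξ.2 * z.2)) := by
  unfold dx
  rw [(dxe_fd ξ z).cos.fderiv]
  simp
  ring

lemma dxe_dx_sin (ξ z : Pl) :
    dx (fun y : Pl => sin (ξ.1 * y.1 + ξ.2 * y.2)) z = ξ.1 * cos (ξ.1 * z.1 + ξ.2 * z.2) := by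
  unfold dx
  rw [(dxe_fd ξ z).sin.fderiv]
  simp
  ring

lemma dxe_dy_cos (ξ z : Pl) :
    dy (fun y : Pl => cos (ξ.1 * y.1 + ξ.2 * y.2)) z = -(ξ.2 * sin (ξ.1 * z.1 + ξ.2 * z.2)) := by
  unfold dy
  rw [(dxe_fd ξ z).cos.fderiv]
  simp
  ring

lemma dxe_dy_sin (ξ z : Pl) :
    dy (fun y : Pl => sin (ξ.1 * y.1 + ξ.2 * y.2)) z = ξ.2 * cos (ξ.1 * z.1 + ξ.2 * z.2) := by
  unfold dy
  rw [(dxe_fd ξ z).sin.fderiv]
  simp
  ring

/-- integration by parts with the smooth function `cos (ξ · y)` (`parts_x`) -/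
lemma ftc_dx {a : Pl → ℝ} (ha : ContDiff ℝ (⊤ : ℕ∞) a) (hc : HasCompactSupport a) (ξ : Pl) :
    RP4.ftc (dx a) ξ = ξ.1 * RP4.fts a ξ := by
  have h := parts_x (dxe_cos_smooth ξ) ha hc
  simp only [dxe_dx_cos] at h
  unfold RP4.ftc RP4.fts
  rw [← integral_const_mul, ← integral_congr_ae (Eventually.of_forall fun y => mul_comm _ _), h,
    ← integral_neg]
  exact integral_congr_ae (Eventually.of_forall fun y => by ring)

lemma fts_dx {a : Pl → ℝ} (ha : ContDiff ℝ (⊤ : ℕ∞) a) (hc : HasCompactSupport a) (ξ : Pl) :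
    RP4.fts (dx a) ξ = -(ξ.1 * RP4.ftc a ξ) := by
  have h := parts_x (dxe_sin_smooth ξ) ha hc
  simp only [dxe_dx_sin] at h
  unfold RP4.ftc RP4.fts
  rw [← integral_const_mul, ← integral_congr_ae (Eventually.of_forall fun y => mul_comm _ _), h]
  congr 1
  exact integral_congr_ae (Eventually.of_forall fun y => by ring)

lemma ftc_dy {a : Pl → ℝ} (ha : ContDiff ℝ (⊤ : ℕ∞) a) (hc : HasCompactSupport a) (ξ : Pl) :
    RP4.ftc (dy a) ξ = ξ.2 * RP4.fts a ξ := by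
  have h := parts_y (dxe_cos_smooth ξ) ha hc
  simp only [dxe_dy_cos] at h
  unfold RP4.ftc RP4.fts
  rw [← integral_const_mul, ← integral_congr_ae (Eventually.of_forall fun y => mul_comm _ _), h,
    ← integral_neg]
  exact integral_congr_ae (Eventually.of_forall fun y => by ring)

lemma fts_dy {a : Pl → ℝ} (ha : ContDiff ℝ (⊤ : ℕ∞) a) (hc : HasCompactSupport a) (ξ : Pl) :
    RP4.fts (dy a) ξ = -(ξ.2 * RP4.ftc a ξ) := by
  have h := parts_y (dxe_sin_smooth ξ) ha hc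
  simp only [dxe_dy_sin] at h
  unfold RP4.ftc RP4.fts
  rw [← integral_const_mul, ← integral_congr_ae (Eventually.of_forall fun y => mul_comm _ _), h]
  congr 1
  exact integral_congr_ae (Eventually.of_forall fun y => by ring)

lemma dxe_le (p q r s : ℝ) : ((p * q) ^ 2 + (-(p * r)) ^ 2) / (p ^ 2 + s ^ 2) ≤ r ^ 2 + q ^ 2 := by
  rcases eq_or_ne (p ^ 2 + s ^ 2) 0 with h | h
  · rw [h, div_zero]
    positivity
  · rw [div_le_iff₀ (lt_of_le_of_ne (by positivity) (Ne.symm h))]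
    nlinarith [mul_nonneg (sq_nonneg s) (add_nonneg (sq_nonneg r) (sq_nonneg q))]

/-
`en_self`, `RP4.energyF`: the integrand is `ξ₁² |â|²/|ξ|² ≤ |â|²`, integrable by `planch` (for the comparison use `integral_mono_of_nonneg`).
-/
theorem en_dx_le {a : Pl → ℝ} (ha : ContDiff ℝ (⊤ : ℕ∞) a) (hc : HasCompactSupport a) :
    en (dx a) (dx a) ≤ ∫ x, a x ^ 2 := by
  have hp := planch ha.continuous hc
  rw [en_self ((dx_smooth ha).of_le (by exact_mod_cast le_top)) (dx_supp hc) (int_dx ha hc)]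
  refine le_trans ?_ hp.2
  unfold RP4.energyF
  refine mul_le_mul_of_nonneg_left ?_ (by positivity)
  refine integral_mono_of_nonneg (Eventually.of_forall fun ξ => ?_) hp.1
    (Eventually.of_forall fun ξ => ?_)
  · simp only [Pi.zero_apply]
    positivity
  · simp only
    rw [ftc_dx ha hc, fts_dx ha hc]
    exact dxe_le _ _ _ _

theorem en_dy_le {a : Pl → ℝ} (ha : ContDiff ℝ (⊤ : ℕ∞) a) (hc : HasCompactSupport a) :
    en (dy a) (dy a) ≤ ∫ x, a x ^ 2 := by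
  have hp := planch ha.continuous hc
  rw [en_self ((dy_smooth ha).of_le (by exact_mod_cast le_top)) (dy_supp hc) (int_dy ha hc)]
  refine le_trans ?_ hp.2
  unfold RP4.energyF
  refine mul_le_mul_of_nonneg_left ?_ (by positivity)
  refine integral_mono_of_nonneg (Eventually.of_forall fun ξ => ?_) hp.1
    (Eventually.of_forall fun ξ => ?_)
  · simp only [Pi.zero_apply]
    positivity
  · simp only
    rw [ftc_dy ha hc, fts_dy ha hc, add_comm (ξ.1 ^ 2)]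
    exact dxe_le _ _ _ _

end EN
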