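import Pool.Agent.Helper97.EN.KerA

/-!
Scalars, continuity of the potential, translations and dilations.
-/

open MeasureTheory Real Set Filter Topology

namespace EN

theorem en_smul_left (c : ℝ) (F G : Pl → ℝ) : en (fun z => c * F z) G = c * en F G := by
  unfold en
  rw [← integral_const_mul]
  refine integral_congr_ae (Filter.Eventually.of_forall fun x => ?_)
  simp only
  rw [← integral_const_mul]
  refine integral_congr_ae (Filter.Eventually.of_forall fun y => ?_)
  simp only
  ring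

theorem en_smul_right (c : ℝ) (F G : Pl → ℝ) : en F (fun z => c * G z) = c * en F G := by
  unfold en
  rw [← integral_const_mul]
  refine integral_congr_ae (Filter.Eventually.of_forall fun x => ?_)
  simp only
  rw [← integral_const_mul]
  refine integral_congr_ae (Filter.Eventually.of_forall fun y => ?_)
  simp only
  ring

private lemma bx_mem_nhds (x : Pl) : bx (‖x‖ + 1) ∈ 𝓝 x := by
  have h1 : |x.1| ≤ ‖x‖ := norm_fst_le x
  have h2 : |x.2| ≤ ‖x‖ := norm_snd_le x
  rw [abs_le] at h1 h2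
  exact prod_mem_nhds (Icc_mem_nhds (by linarith [h1.1]) (by linarith [h1.2]))
    (Icc_mem_nhds (by linarith [h2.1]) (by linarith [h2.2]))

private lemma Phi_locInt : LocallyIntegrable Phi (volume : Measure Pl) := fun x =>
  ⟨bx (‖x‖ + 1), bx_mem_nhds x, Phi_int _⟩

/-- continuity of the potential -/
lemma pot_continuous {G : Pl → ℝ} (hG : Continuous G) (hGc : HasCompactSupport G) :
    Continuous (pot G) :=
  HasCompactSupport.continuous_convolution_left (ContinuousLinearMap.mul ℝ ℝ) hGc hG Phi_locInt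

/-- translations -/
theorem en_trans (F G : Pl → ℝ) (a : Pl) : en (fun z => F (z - a)) (fun z => G (z - a)) = en F G := by
  unfold en
  rw [← integral_sub_right_eq_self (fun x : Pl => ∫ y : Pl,
    F x * G y * (-(1 / (2 * π)) * log (Real.sqrt ((x.1 - y.1) ^ 2 + (x.2 - y.2) ^ 2)))) a]
  refine integral_congr_ae (Filter.Eventually.of_forall fun x => ?_)
  simp only
  rw [← integral_sub_right_eq_self (fun y : Pl => F (x - a) * G y *
    (-(1 / (2 * π)) * log (Real.sqrt (((x - a).1 - y.1) ^ 2 + ((x - a).2 - y.2) ^ 2)))) a]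
  refine integral_congr_ae (Filter.Eventually.of_forall fun y => ?_)
  simp only [Prod.fst_sub, Prod.snd_sub, sub_sub_sub_cancel_right]

private lemma Phi_smul {r : ℝ} (hr : 0 < r) {z : Pl} (hz : z ≠ 0) :
    Phi z = Phi (r • z) + 1 / (2 * π) * log r := by
  have h1 : Real.sqrt ((r • z).1 ^ 2 + (r • z).2 ^ 2) = r * Real.sqrt (z.1 ^ 2 + z.2 ^ 2) := by
    have h2 : (r • z).1 ^ 2 + (r • z).2 ^ 2 = r ^ 2 * (z.1 ^ 2 + z.2 ^ 2) := by
      simp only [Prod.smul_fst, Prod.smul_snd, smul_eq_mul]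
      ring
    rw [h2, Real.sqrt_mul (by positivity), Real.sqrt_sq hr.le]
  have h3 : Real.sqrt (z.1 ^ 2 + z.2 ^ 2) ≠ 0 := by
    intro h
    rw [Real.sqrt_eq_zero (by positivity)] at h
    have h4 : z.1 = 0 := by nlinarith [sq_nonneg z.1, sq_nonneg z.2]
    have h5 : z.2 = 0 := by nlinarith [sq_nonneg z.1, sq_nonneg z.2]
    exact hz (Prod.ext h4 h5)
  unfold Phi
  rw [h1, Real.log_mul hr.ne' h3]
  ring

private lemma fin2 : Module.finrank ℝ Pl = 2 := by
  simp [Pl]

private lemma int_smul (h : Pl → ℝ) {r : ℝ} (hr : 0 < r) :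
    ∫ x, h (r • x) = (r ^ 2)⁻¹ * ∫ x, h x := by
  rw [Measure.integral_comp_smul, fin2, abs_of_pos (by positivity), smul_eq_mul]

private lemma pot_dil {F : Pl → ℝ} (hF : Continuous F) (hFc : HasCompactSupport F)
    (h0 : ∫ z, F z = 0) {r : ℝ} (hr : 0 < r) (x : Pl) :
    pot (fun z => F (r • z)) x = (r ^ 2)⁻¹ * pot F (r • x) := by
  unfold pot
  have h1 : ∫ y : Pl, F (r • y) * Phi (x - y) = ∫ y : Pl,
      (fun Y : Pl => F Y * Phi (r • x - Y) + F Y * (1 / (2 * π) * log r)) (r • y) := by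
    refine integral_congr_ae ?_
    have h2 : ∀ᵐ y : Pl, y ≠ x := by
      rw [Measure.volume_eq_prod]
      exact Measure.ae_ne _ _
    filter_upwards [h2] with y hy
    have h3 : x - y ≠ 0 := sub_ne_zero.2 hy.symm
    have h4 := Phi_smul hr h3
    rw [h4, smul_sub]
    ring
  rw [h1, int_smul (fun Y : Pl => F Y * Phi (r • x - Y) + F Y * (1 / (2 * π) * log r)) hr]
  congr 1
  rw [integral_add (ker_int1 hF hFc (r • x)) ((hF.integrable_of_hasCompactSupport hFc).mul_const _),
    integral_mul_const, h0, zero_mul, add_zero]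

/-
`z = r w`: the kernel changes by the constant `(1/(2π)) log r`, which disappears as `∫ F = 0`.
-/
theorem en_dil {F : Pl → ℝ} (hF : Continuous F) (hFc : HasCompactSupport F) (h0 : ∫ z, F z = 0)
    {r : ℝ} (hr : 0 < r) :
    en (fun z => F (r * z.1, r * z.2)) (fun z => F (r * z.1, r * z.2)) = r⁻¹ ^ 4 * en F F := by
  have h1 : (fun z : Pl => F (r * z.1, r * z.2)) = fun z => F (r • z) := rfl
  rw [h1, en_eq, en_eq]
  simp_rw [pot_dil hF hFc h0 hr]
  have h2 := int_smul (fun X => F X * ((r ^ 2)⁻¹ * pot F X)) hr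
  rw [h2]
  have h3 : ∫ X, F X * ((r ^ 2)⁻¹ * pot F X) = (r ^ 2)⁻¹ * ∫ X, F X * pot F X := by
    rw [← integral_const_mul]
    refine integral_congr_ae (Filter.Eventually.of_forall fun X => ?_)
    simp only
    ring
  rw [h3, inv_pow]
  field_simp

end EN
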