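import Pool.Agent.Helper97.EN.Defs

/-!
The regularised kernel.
-/

open MeasureTheory Real Set Filter Topology

namespace EN

/-! regularised kernel -/

noncomputable def Phis (s : ℝ) (z : Pl) : ℝ := -(1 / (4 * π)) * log (z.1 ^ 2 + z.2 ^ 2 + s ^ 2)

private lemma q_pos {s : ℝ} (hs : 0 < s) (z : Pl) : 0 < z.1 ^ 2 + z.2 ^ 2 + s ^ 2 := by
  positivity

lemma Phis_smooth {s : ℝ} (hs : 0 < s) : ContDiff ℝ (⊤ : ℕ∞) (Phis s) := by
  have h1 : ContDiff ℝ (⊤ : ℕ∞) (fun z : Pl => z.1 ^ 2 + z.2 ^ 2 + s ^ 2) :=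
    ((contDiff_fst.pow 2).add (contDiff_snd.pow 2)).add contDiff_const
  have h2 : ContDiff ℝ (⊤ : ℕ∞) (fun z : Pl => log (z.1 ^ 2 + z.2 ^ 2 + s ^ 2)) :=
    h1.log (fun z => (q_pos hs z).ne')
  exact contDiff_const.mul h2

private lemma q_has (s : ℝ) (z : Pl) :
    HasFDerivAt (fun z : Pl => z.1 ^ 2 + z.2 ^ 2 + s ^ 2)
      ((2 * z.1) • ContinuousLinearMap.fst ℝ ℝ ℝ + (2 * z.2) • ContinuousLinearMap.snd ℝ ℝ ℝ) z := by
  have h1 : HasFDerivAt (fun z : Pl => z.1 ^ 2) ((2 * z.1) • ContinuousLinearMap.fst ℝ ℝ ℝ) z := by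
    have h := (hasFDerivAt_fst (𝕜 := ℝ) (p := z)).pow 2
    have e : (2 • z.1 ^ (2 - 1)) • ContinuousLinearMap.fst ℝ ℝ ℝ =
        (2 * z.1) • ContinuousLinearMap.fst ℝ ℝ ℝ := by
      congr 1
      simp
    rw [← e]
    exact h
  have h2 : HasFDerivAt (fun z : Pl => z.2 ^ 2) ((2 * z.2) • ContinuousLinearMap.snd ℝ ℝ ℝ) z := by
    have h := (hasFDerivAt_snd (𝕜 := ℝ) (p := z)).pow 2
    have e : (2 • z.2 ^ (2 - 1)) • ContinuousLinearMap.snd ℝ ℝ ℝ =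
        (2 * z.2) • ContinuousLinearMap.snd ℝ ℝ ℝ := by
      congr 1
      simp
    rw [← e]
    exact h
  exact (h1.add h2).add_const (s ^ 2)

private lemma Phis_has {s : ℝ} (hs : 0 < s) (z : Pl) :
    HasFDerivAt (Phis s)
      ((-(1 / (4 * π))) • ((z.1 ^ 2 + z.2 ^ 2 + s ^ 2)⁻¹ •
        ((2 * z.1) • ContinuousLinearMap.fst ℝ ℝ ℝ + (2 * z.2) • ContinuousLinearMap.snd ℝ ℝ ℝ))) z := by
  have h1 := (q_has s z).log (q_pos hs z).ne'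
  exact h1.const_mul (-(1 / (4 * π)))

private lemma dx_Phis {s : ℝ} (hs : 0 < s) :
    dx (Phis s) = fun z : Pl => -(1 / (4 * π)) * ((z.1 ^ 2 + z.2 ^ 2 + s ^ 2)⁻¹ * (2 * z.1)) := by
  funext z
  unfold dx
  rw [(Phis_has hs z).fderiv]
  simp

private lemma dy_Phis {s : ℝ} (hs : 0 < s) :
    dy (Phis s) = fun z : Pl => -(1 / (4 * π)) * ((z.1 ^ 2 + z.2 ^ 2 + s ^ 2)⁻¹ * (2 * z.2)) := by
  funext z
  unfold dy
  rw [(Phis_has hs z).fderiv]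
  simp

lemma lap_Phis {s : ℝ} (hs : 0 < s) (z : Pl) :
    lap (Phis s) z = -(s ^ 2 / (π * (z.1 ^ 2 + z.2 ^ 2 + s ^ 2) ^ 2)) := by
  have hq := q_pos hs z
  have hi := (hasDerivAt_inv hq.ne').comp_hasFDerivAt z (q_has s z)
  have hx1 : HasFDerivAt (fun z : Pl => 2 * z.1) ((2 : ℝ) • ContinuousLinearMap.fst ℝ ℝ ℝ) z :=
    (hasFDerivAt_fst (𝕜 := ℝ) (p := z)).const_mul 2
  have hy1 : HasFDerivAt (fun z : Pl => 2 * z.2) ((2 : ℝ) • ContinuousLinearMap.snd ℝ ℝ ℝ) z :=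
    (hasFDerivAt_snd (𝕜 := ℝ) (p := z)).const_mul 2
  have hx := (hi.mul hx1).const_mul (-(1 / (4 * π)))
  have hy := (hi.mul hy1).const_mul (-(1 / (4 * π)))
  have ex : dx (dx (Phis s)) z = -(1 / (4 * π)) * ((z.1 ^ 2 + z.2 ^ 2 + s ^ 2)⁻¹ * 2 +
      2 * z.1 * (-((z.1 ^ 2 + z.2 ^ 2 + s ^ 2) ^ 2)⁻¹ * (2 * z.1))) := by
    rw [dx_Phis hs]
    unfold dx
    have := hx.fderiv
    simp only [Function.comp_def] at this
    erw [this]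
    simp
    ring
  have ey : dy (dy (Phis s)) z = -(1 / (4 * π)) * ((z.1 ^ 2 + z.2 ^ 2 + s ^ 2)⁻¹ * 2 +
      2 * z.2 * (-((z.1 ^ 2 + z.2 ^ 2 + s ^ 2) ^ 2)⁻¹ * (2 * z.2))) := by
    rw [dy_Phis hs]
    unfold dy
    have := hy.fderiv
    simp only [Function.comp_def] at this
    erw [this]
    simp
    ring
  unfold lap
  rw [ex, ey]
  have hpi := Real.pi_ne_zero
  field_simp
  ring

end EN
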